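import Pool.Agent.Helper22M.Prob

/-!
# From level sets to large values of Dirichlet polynomials
-/

set_option autoImplicit false

open Finset Real

namespace Pool.Agent.Helper22M

/-- **Derandomised sampling**: a large sum is approximated by the sum over a subset. -/
theorem samp {ι : Type*} (E : Finset ι) (a : ℕ → ι → ℂ) (ha : ∀ u n, ‖a u n‖ ≤ 1) (q γ : ℝ)
    (hq0 : 0 < q) (hq1 : q ≤ 1) (W : Finset ℕ) :
    ∀ z : ι → ℂ, ∃ S ⊆ W, ∑ n ∈ E, ‖z n + (q⁻¹ : ℝ) • ∑ u ∈ S, a u n - ∑ u ∈ W, a u n‖ ^ 2 +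
      γ * S.card ≤ ∑ n ∈ E, ‖z n‖ ^ 2 + W.card * (E.card * ((1 - q) / q) + γ * q) := by
  classical
  induction W using Finset.induction_on with
  | empty =>
    intro z
    exact ⟨∅, subset_rfl, by simp⟩
  | insert v W hv ih =>
    intro z
    set A1 : ℝ := ∑ n ∈ E, ‖z n + (q⁻¹ - 1 : ℝ) • a v n‖ ^ 2 + γ with hA1
    set A2 : ℝ := ∑ n ∈ E, ‖z n - a v n‖ ^ 2 with hA2
    set T : ℝ := ∑ n ∈ E, ‖z n‖ ^ 2 + (E.card * ((1 - q) / q) + γ * q) with hT
    have havg : q * A1 + (1 - q) * A2 ≤ T := by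
      have hn : ∀ n ∈ E, q * ‖z n + (q⁻¹ - 1 : ℝ) • a v n‖ ^ 2 + (1 - q) * ‖z n - a v n‖ ^ 2 ≤
          ‖z n‖ ^ 2 + (1 - q) / q := by
        intro n _
        have h1 : ‖z n + (q⁻¹ - 1 : ℝ) • a v n‖ ^ 2 = (z n).re ^ 2 + (z n).im ^ 2 +
            2 * (q⁻¹ - 1) * ((z n).re * (a v n).re + (z n).im * (a v n).im) +
            (q⁻¹ - 1) ^ 2 * ((a v n).re ^ 2 + (a v n).im ^ 2) := by
          rw [← Complex.normSq_eq_norm_sq, Complex.normSq_apply]
          simp only [Complex.add_re, Complex.add_im, Complex.real_smul, Complex.mul_re, Complex.mul_im,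
            Complex.ofReal_re, Complex.ofReal_im]
          ring
        have h2 : ‖z n - a v n‖ ^ 2 = (z n).re ^ 2 + (z n).im ^ 2 -
            2 * ((z n).re * (a v n).re + (z n).im * (a v n).im) +
            ((a v n).re ^ 2 + (a v n).im ^ 2) := by
          rw [← Complex.normSq_eq_norm_sq, Complex.normSq_apply]
          simp only [Complex.sub_re, Complex.sub_im]
          ring
        have h3 : ‖z n‖ ^ 2 = (z n).re ^ 2 + (z n).im ^ 2 := by
          rw [← Complex.normSq_eq_norm_sq, Complex.normSq_apply]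
          ring
        have h4 : (a v n).re ^ 2 + (a v n).im ^ 2 ≤ 1 := by
          have : ‖a v n‖ ^ 2 = (a v n).re ^ 2 + (a v n).im ^ 2 := by
            rw [← Complex.normSq_eq_norm_sq, Complex.normSq_apply]
            ring
          rw [← this]
          exact pow_le_one₀ (norm_nonneg _) (ha v n)
        have h5 : q * (q⁻¹ - 1) = 1 - q := by
          field_simp
        have h6 : q * (q⁻¹ - 1) ^ 2 + (1 - q) = (1 - q) / q := by
          field_simp
          ring
        have h7 : 0 ≤ (1 - q) / q := div_nonneg (by linarith) hq0.le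
        rw [h1, h2, h3]
        have h8 : q * ((z n).re ^ 2 + (z n).im ^ 2 +
            2 * (q⁻¹ - 1) * ((z n).re * (a v n).re + (z n).im * (a v n).im) +
            (q⁻¹ - 1) ^ 2 * ((a v n).re ^ 2 + (a v n).im ^ 2)) + (1 - q) *
            ((z n).re ^ 2 + (z n).im ^ 2 -
            2 * ((z n).re * (a v n).re + (z n).im * (a v n).im) +
            ((a v n).re ^ 2 + (a v n).im ^ 2)) = ((z n).re ^ 2 + (z n).im ^ 2) +
            (q * (q⁻¹ - 1) ^ 2 + (1 - q)) * ((a v n).re ^ 2 + (a v n).im ^ 2) +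
            2 * (q * (q⁻¹ - 1) - (1 - q)) * ((z n).re * (a v n).re + (z n).im * (a v n).im) := by
          ring
        rw [h8, h5, h6]
        nlinarith
      have hs := Finset.sum_le_sum hn
      simp only [Finset.sum_add_distrib, ← Finset.mul_sum, Finset.sum_const, nsmul_eq_mul] at hs
      rw [hA1, hA2, hT]
      nlinarith
    have hcase : A1 ≤ T ∨ A2 ≤ T := by
      by_contra h
      push Not at h
      have h1 : q * T < q * A1 := mul_lt_mul_of_pos_left h.1 hq0
      have h2 : (1 - q) * T ≤ (1 - q) * A2 := mul_le_mul_of_nonneg_left h.2.le (by linarith)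
      nlinarith
    have hcard : ((insert v W).card : ℝ) = W.card + 1 := by
      rw [Finset.card_insert_of_notMem hv]
      push_cast
      rfl
    rcases hcase with h | h
    · obtain ⟨S, hS, hSb⟩ := ih (fun n => z n + (q⁻¹ - 1 : ℝ) • a v n)
      have hvS : v ∉ S := fun h' => hv (hS h')
      refine ⟨insert v S, Finset.insert_subset_insert _ hS, ?_⟩
      have heq : ∀ n, z n + (q⁻¹ : ℝ) • ∑ u ∈ insert v S, a u n - ∑ u ∈ insert v W, a u n =
          (z n + (q⁻¹ - 1 : ℝ) • a v n) + (q⁻¹ : ℝ) • ∑ u ∈ S, a u n - ∑ u ∈ W, a u n := by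
        intro n
        rw [Finset.sum_insert hvS, Finset.sum_insert hv, smul_add, sub_smul, one_smul]
        ring
      simp only [heq]
      rw [Finset.card_insert_of_notMem hvS, hcard]
      push_cast
      rw [hA1, hT] at h
      linarith
    · obtain ⟨S, hS, hSb⟩ := ih (fun n => z n - a v n)
      refine ⟨S, hS.trans (Finset.subset_insert _ _), ?_⟩
      have heq : ∀ n, z n + (q⁻¹ : ℝ) • ∑ u ∈ S, a u n - ∑ u ∈ insert v W, a u n =
          (z n - a v n) + (q⁻¹ : ℝ) • ∑ u ∈ S, a u n - ∑ u ∈ W, a u n := by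
        intro n
        rw [Finset.sum_insert hv]
        ring
      simp only [heq]
      rw [hcard]
      rw [hA2, hT] at h
      linarith

/-- number of large values -/
noncomputable def lv (x : ℕ → ℝ) (N : ℕ) (P : Finset ℕ) (τ : ℝ) : ℝ :=
  (((Icc N (2 * N)).filter (fun n => τ ≤ ‖FP P (x n)‖)).card : ℝ)

theorem card_le_of_inj {P : Finset ℕ} {M : ℕ} (hP : P ⊆ range (4 * M))
    (hPi : Set.InjOn (fun u : ℕ => u / 4) P) : P.card ≤ M := by
  have h1 : (P.image fun u => u / 4).card = P.card := Finset.card_image_of_injOn hPi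
  rw [← h1]
  have h2 : (P.image fun u => u / 4) ⊆ range M := by
    intro t ht
    obtain ⟨u, hu, rfl⟩ := mem_image.1 ht
    have := mem_range.1 (hP hu)
    rw [mem_range]
    omega
  simpa using Finset.card_le_card h2

theorem G {x : ℕ → ℝ} {N M : ℕ} {c B : ℝ} (hN : 1 ≤ N) (hc : 1 ≤ c) (hB : 0 ≤ B)
    (hG : Good x N M c B) {P : Finset ℕ}
    (hP : P ⊆ range (4 * M)) (hPi : Set.InjOn (fun u : ℕ => u / 4) P) {τ : ℝ} (hτ : 0 < τ) :
    lv x N P τ ≤ 2 * c * N * P.card / τ ^ 2 + B * P.card := by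
  have hN1 : (1 : ℝ) ≤ N := by exact_mod_cast hN
  have hτ2 : 0 < τ ^ 2 := by positivity
  have hrhs : 0 ≤ 2 * c * N * P.card / τ ^ 2 + B * P.card := by positivity
  rcases P.eq_empty_or_nonempty with h0 | hne
  · subst h0
    have : lv x N ∅ τ = 0 := by
      unfold lv
      rw [Finset.filter_eq_empty_iff.2, Finset.card_empty, Nat.cast_zero]
      intro n _
      simp only [FP, Finset.sum_empty, norm_zero, not_le]
      exact hτ
    rw [this]
    exact hrhs
  have hPc : (1 : ℝ) ≤ P.card := by exact_mod_cast hne.card_pos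
  rcases lt_or_ge τ 1 with h1 | h1
  · -- trivial bound
    have h2 : lv x N P τ ≤ N + 1 := by
      unfold lv
      have : ((Icc N (2 * N)).filter (fun n => τ ≤ ‖FP P (x n)‖)).card ≤ N + 1 := by
        refine (Finset.card_filter_le _ _).trans ?_
        rw [Nat.card_Icc]
        omega
      exact_mod_cast this
    have h3 : 2 * c * N * P.card ≤ 2 * c * N * P.card / τ ^ 2 := by
      rw [le_div_iff₀ hτ2]
      have : τ ^ 2 ≤ 1 := pow_le_one₀ hτ.le h1.le
      have h4 : (0 : ℝ) ≤ 2 * c * N * P.card := by positivity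
      nlinarith
    have h5 : (1 : ℝ) ≤ c * P.card := one_le_mul_of_one_le_of_one_le hc hPc
    have h6 : (N : ℝ) ≤ N * (c * P.card) := le_mul_of_one_le_right (by linarith) h5
    have h7 : 0 ≤ B * P.card := by positivity
    nlinarith
  · set s : ℕ := ⌊τ ^ 2⌋₊ with hs
    have hs1 : 1 ≤ s := by
      rw [hs, Nat.one_le_floor_iff]
      nlinarith
    have hs1r : (1 : ℝ) ≤ s := by exact_mod_cast hs1
    have hsle : (s : ℝ) ≤ τ ^ 2 := Nat.floor_le hτ2.le
    have hslt : τ ^ 2 < s + 1 := Nat.lt_floor_add_one _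
    rcases le_or_gt s (M ^ 2) with hsM | hsM
    · have h2 := hG P hP hPi s (mem_Icc.2 ⟨hs1, hsM⟩)
      have h3 : lv x N P τ ≤
          (((Icc N (2 * N)).filter (fun n => (s : ℝ) ≤ ‖FP P (x n)‖ ^ 2)).card : ℝ) := by
        unfold lv
        have : ((Icc N (2 * N)).filter (fun n => τ ≤ ‖FP P (x n)‖)).card ≤
            ((Icc N (2 * N)).filter (fun n => (s : ℝ) ≤ ‖FP P (x n)‖ ^ 2)).card := by
          apply Finset.card_le_card
          intro n hn
          rw [mem_filter] at hn ⊢
          exact ⟨hn.1, hsle.trans (pow_le_pow_left₀ hτ.le hn.2 2)⟩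
        exact_mod_cast this
      refine (h3.trans h2).trans ?_
      gcongr ?_ + _
      rw [div_le_div_iff₀ (by linarith) hτ2]
      have h4 : (0 : ℝ) ≤ c * N * P.card := by positivity
      have h5 : τ ^ 2 ≤ 2 * s := by linarith
      nlinarith
    · have : lv x N P τ = 0 := by
        unfold lv
        rw [Finset.filter_eq_empty_iff.2, Finset.card_empty, Nat.cast_zero]
        intro n _ hn
        have h2 : ‖FP P (x n)‖ ≤ M := (norm_FP_le P _).trans (by exact_mod_cast card_le_of_inj hP hPi)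
        have h3 : τ ^ 2 ≤ (M : ℝ) ^ 2 := pow_le_pow_left₀ hτ.le (hn.trans h2) 2
        have h4 : ((M ^ 2 : ℕ) : ℝ) < s := by exact_mod_cast hsM
        push_cast at h4
        linarith
      rw [this]
      exact hrhs

theorem Hl {x : ℕ → ℝ} {N M : ℕ} {c B : ℝ} (hN : 1 ≤ N) (hc : 1 ≤ c) (hB : 0 ≤ B)
    (hG : Good x N M c B) {W : Finset ℕ}
    (hW : W ⊆ range (4 * M)) (hWi : Set.InjOn (fun u : ℕ => u / 4) W) {l q : ℝ} (hl : 0 < l)
    (hq0 : 0 < q) (hq1 : q ≤ 1) (h16 : 16 * W.card ≤ q * l ^ 2) :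
    lv x N W l ≤ 32 * c * N * W.card / (q * l ^ 2) + 4 * B * q * W.card := by
  classical
  have hN1 : (1 : ℝ) ≤ N := by exact_mod_cast hN
  set E := (Icc N (2 * N)).filter (fun n => l ≤ ‖FP W (x n)‖) with hE
  have hlv : lv x N W l = E.card := rfl
  set R : ℝ := ((W.card : ℕ) : ℝ) with hR
  have hR0 : 0 ≤ R := by positivity
  have hrhs : 0 ≤ 32 * c * N * R / (q * l ^ 2) + 4 * B * q * R := by positivity
  rcases E.eq_empty_or_nonempty with h0 | hne
  · rw [hlv, h0, Finset.card_empty, Nat.cast_zero]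
    exact hrhs
  have hm : (1 : ℝ) ≤ E.card := by exact_mod_cast hne.card_pos
  set m : ℝ := ((E.card : ℕ) : ℝ) with hmdef
  obtain ⟨S, hS, hSb⟩ := samp E (fun u n => Complex.I ^ u * ex (u / 4) (x n))
    (fun u n => (norm_term u (x n)).le) q (m / q ^ 2) hq0 hq1 W (fun _ => 0)
  have hFW : ∀ n, ∑ u ∈ W, (Complex.I ^ u * ex (u / 4) (x n)) = FP W (x n) := fun n => rfl
  have hFS : ∀ n, ∑ u ∈ S, (Complex.I ^ u * ex (u / 4) (x n)) = FP S (x n) := fun n => rfl
  simp only [hFW, hFS, zero_add, norm_zero] at hSb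
  have h1 : R * (m * ((1 - q) / q) + m / q ^ 2 * q) ≤ 2 * R * m / q := by
    have h2 : m * ((1 - q) / q) + m / q ^ 2 * q = m * (2 - q) / q := by
      field_simp
      ring
    rw [h2, mul_div_assoc', div_le_div_iff₀ hq0 hq0]
    have h3 : 0 ≤ R * m * q * q := by positivity
    nlinarith
  have hSb2 : ∑ n ∈ E, ‖(q⁻¹ : ℝ) • FP S (x n) - FP W (x n)‖ ^ 2 + m / q ^ 2 * S.card ≤
      2 * R * m / q := by
    refine le_trans (hSb.trans (le_of_eq ?_)) h1
    rw [hR, hmdef]
    simp
  have hsum0 : 0 ≤ ∑ n ∈ E, ‖(q⁻¹ : ℝ) • FP S (x n) - FP W (x n)‖ ^ 2 :=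
    Finset.sum_nonneg fun n _ => by positivity
  have hScard : (S.card : ℝ) ≤ 2 * q * R := by
    have h2 : m / q ^ 2 * S.card ≤ 2 * R * m / q := by linarith
    have h3 : m / q ^ 2 * S.card = m * (S.card / q ^ 2) := by ring
    have h4 : 2 * R * m / q = m * (2 * q * R / q ^ 2) := by field_simp
    rw [h3, h4] at h2
    have h5 := le_of_mul_le_mul_left h2 (by linarith)
    rwa [div_le_div_iff_of_pos_right (by positivity)] at h5
  -- the bad points
  set Bd := E.filter (fun n => ¬ (q * l / 2 ≤ ‖FP S (x n)‖)) with hBd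
  have hbad : (Bd.card : ℝ) ≤ m / 2 := by
    have h2 : (Bd.card : ℝ) * (l ^ 2 / 4) ≤ ∑ n ∈ E, ‖(q⁻¹ : ℝ) • FP S (x n) - FP W (x n)‖ ^ 2 := by
      calc (Bd.card : ℝ) * (l ^ 2 / 4) = ∑ n ∈ Bd, l ^ 2 / 4 := by
            rw [Finset.sum_const, nsmul_eq_mul]
        _ ≤ ∑ n ∈ Bd, ‖(q⁻¹ : ℝ) • FP S (x n) - FP W (x n)‖ ^ 2 := by
            refine Finset.sum_le_sum fun n hn => ?_
            rw [hBd, mem_filter] at hn
            have h3 : l ≤ ‖FP W (x n)‖ := (mem_filter.1 hn.1).2
            have h4 : ‖(q⁻¹ : ℝ) • FP S (x n)‖ < l / 2 := by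
              rw [norm_smul, Real.norm_eq_abs, abs_of_pos (by positivity)]
              have h5 := not_le.1 hn.2
              calc q⁻¹ * ‖FP S (x n)‖ < q⁻¹ * (q * l / 2) := mul_lt_mul_of_pos_left h5 (by positivity)
                _ = l / 2 := by field_simp
            have h6 : l / 2 ≤ ‖(q⁻¹ : ℝ) • FP S (x n) - FP W (x n)‖ := by
              have := norm_sub_norm_le (FP W (x n)) ((q⁻¹ : ℝ) • FP S (x n))
              rw [norm_sub_rev] at this
              linarith
            have h7 : (l / 2) ^ 2 ≤ ‖(q⁻¹ : ℝ) • FP S (x n) - FP W (x n)‖ ^ 2 :=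
              pow_le_pow_left₀ (by positivity) h6 2
            calc l ^ 2 / 4 = (l / 2) ^ 2 := by ring
              _ ≤ _ := h7
        _ ≤ _ := Finset.sum_le_sum_of_subset_of_nonneg (Finset.filter_subset _ _)
            fun n _ _ => by positivity
    have hmq : 0 ≤ m / q ^ 2 * S.card := by positivity
    have h3 : (Bd.card : ℝ) * (l ^ 2 / 4) ≤ 2 * R * m / q := by linarith
    have h4 : 2 * R * m / q ≤ m / 2 * (l ^ 2 / 4) := by
      rw [div_le_iff₀ hq0]
      have h5 : m * (16 * R) ≤ m * (q * l ^ 2) := mul_le_mul_of_nonneg_left h16 (by linarith)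
      nlinarith
    exact le_of_mul_le_mul_right (h3.trans h4) (by positivity)
  have hgood : m / 2 ≤ lv x N S (q * l / 2) := by
    have h2 : E.card = (E.filter (fun n => q * l / 2 ≤ ‖FP S (x n)‖)).card + Bd.card := by
      rw [hBd, Finset.card_filter_add_card_filter_not]
    have h3 : ((E.filter (fun n => q * l / 2 ≤ ‖FP S (x n)‖)).card : ℝ) ≤ lv x N S (q * l / 2) := by
      unfold lv
      have : (E.filter (fun n => q * l / 2 ≤ ‖FP S (x n)‖)).card ≤
          ((Icc N (2 * N)).filter (fun n => q * l / 2 ≤ ‖FP S (x n)‖)).card :=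
        Finset.card_le_card (Finset.filter_subset_filter _ (Finset.filter_subset _ _))
      exact_mod_cast this
    have h4 : m = ((E.filter (fun n => q * l / 2 ≤ ‖FP S (x n)‖)).card : ℝ) + Bd.card := by
      rw [hmdef]
      exact_mod_cast h2
    linarith
  have h2 := G hN hc hB hG (hS.trans hW) (hWi.mono (by exact_mod_cast hS)) (τ := q * l / 2)
    (by positivity)
  have h3 : 2 * c * N * S.card / (q * l / 2) ^ 2 ≤ 16 * c * N * R / (q * l ^ 2) := by
    rw [div_le_div_iff₀ (by positivity) (by positivity)]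
    have h4 : 2 * c * N * (S.card : ℝ) ≤ 2 * c * N * (2 * q * R) :=
      mul_le_mul_of_nonneg_left hScard (by positivity)
    calc 2 * c * N * (S.card : ℝ) * (q * l ^ 2) ≤ 2 * c * N * (2 * q * R) * (q * l ^ 2) :=
          mul_le_mul_of_nonneg_right h4 (by positivity)
      _ = 16 * c * N * R * (q * l / 2) ^ 2 := by ring
  have h4 : B * S.card ≤ B * (2 * q * R) := mul_le_mul_of_nonneg_left hScard hB
  rw [hlv]
  have h5 : m ≤ 2 * (16 * c * N * R / (q * l ^ 2) + B * (2 * q * R)) := by linarith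
  refine h5.trans (le_of_eq ?_)
  ring

/-- dyadic decomposition -/
theorem dyad {l a q : ℝ} (hl : 0 < l) (ha : 0 ≤ a) (hq : 0 ≤ q) (J : ℕ) (haJ : a < 2 ^ J * l) :
    a ^ q ≤ l ^ q + ∑ j ∈ range J, (2 * (2 ^ j * l)) ^ q * (if 2 ^ j * l ≤ a then 1 else 0) := by
  induction J with
  | zero =>
    simp only [pow_zero, one_mul, range_zero, Finset.sum_empty, add_zero] at haJ ⊢
    exact Real.rpow_le_rpow ha haJ.le hq
  | succ J ih =>
    rw [Finset.sum_range_succ, ← add_assoc]
    rcases lt_or_ge a (2 ^ J * l) with h | h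
    · rw [if_neg (not_le.2 h), mul_zero, add_zero]
      exact ih h
    · rw [if_pos h, mul_one]
      have h1 : a ^ q ≤ (2 * (2 ^ J * l)) ^ q := by
        apply Real.rpow_le_rpow ha _ hq
        calc a ≤ 2 ^ (J + 1) * l := haJ.le
          _ = 2 * (2 ^ J * l) := by ring
      have h2 : 0 ≤ l ^ q := by positivity
      have h3 : 0 ≤ ∑ j ∈ range J, (2 * (2 ^ j * l)) ^ q * (if 2 ^ j * l ≤ a then (1 : ℝ) else 0) := by
        apply Finset.sum_nonneg
        intro j _
        split_ifs <;> positivity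
      linarith

/-- the Dirichlet polynomial at the points `x` -/
noncomputable def Dx (x : ℕ → ℝ) (N : ℕ) (b : ℕ → ℂ) (t : ℕ) : ℂ :=
  ∑ n ∈ Icc N (2 * N), b n * ex t (x n)

theorem norm_Dx_le (x : ℕ → ℝ) {N : ℕ} (hN : 1 ≤ N) (b : ℕ → ℂ) (hb : ∀ n, ‖b n‖ ≤ 1) (t : ℕ) :
    ‖Dx x N b t‖ ≤ 2 * N := by
  unfold Dx
  have h1 : ‖∑ n ∈ Icc N (2 * N), b n * ex t (x n)‖ ≤ ∑ n ∈ Icc N (2 * N), (1 : ℝ) := by
    refine (norm_sum_le _ _).trans (Finset.sum_le_sum fun n _ => ?_)
    rw [norm_mul, norm_ex, mul_one]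
    exact hb n
  rw [Finset.sum_const, nsmul_eq_mul, mul_one, Nat.card_Icc] at h1
  refine h1.trans ?_
  have : 2 * N + 1 - N ≤ 2 * N := by omega
  exact_mod_cast this

theorem exists_rot (z : ℂ) : ∃ a : ℕ, a < 4 ∧ ‖z‖ / 2 ≤ (Complex.I ^ a * z).re := by
  have h : ‖z‖ ≤ |z.re| + |z.im| := Complex.norm_le_abs_re_add_abs_im z
  rcases le_total |z.im| |z.re| with h1 | h1
  · rcases abs_cases z.re with h2 | h2
    · exact ⟨0, by norm_num, by simp; linarith⟩
    · refine ⟨2, by norm_num, ?_⟩
      simp only [Complex.I_sq, neg_one_mul, Complex.neg_re]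
      linarith
  · rcases abs_cases z.im with h2 | h2
    · refine ⟨3, by norm_num, ?_⟩
      have : Complex.I ^ 3 = -Complex.I := by
        rw [pow_succ, Complex.I_sq]
        ring
      rw [this]
      simp only [neg_mul, Complex.neg_re, Complex.mul_re, Complex.I_re, Complex.I_im, zero_mul, one_mul,
        zero_sub, neg_neg]
      linarith
    · refine ⟨1, by norm_num, ?_⟩
      simp only [pow_one, Complex.mul_re, Complex.I_re, Complex.I_im, zero_mul, one_mul, zero_sub]
      linarith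

/-- **Large values.** -/
theorem LV {x : ℕ → ℝ} {N M : ℕ} {c B : ℝ} (hN : 1 ≤ N) (hc : 1 ≤ c) (hB : 0 ≤ B)
    (hG : Good x N M c B) {b : ℕ → ℂ} (hb : ∀ n, ‖b n‖ ≤ 1) {V : ℝ} (hV1 : 1 ≤ V)
    (hV : 163840 * c * B * ((Nat.log 2 (8 * N) + 1 : ℕ) : ℝ) ^ 2 * N ≤ V ^ 2) {W : Finset ℕ}
    (hW : ∀ t ∈ W, t < M) (hWV : ∀ t ∈ W, V ≤ ‖Dx x N b t‖) :
    (W.card : ℝ) ≤ 512 * c * N ^ 2 / V ^ 2 := by
  classical
  have hN1 : (1 : ℝ) ≤ N := by exact_mod_cast hN
  have hN0 : (0 : ℝ) < N := by linarith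
  have hV0 : 0 < V := by linarith
  rcases W.eq_empty_or_nonempty with h0 | hne
  · rw [h0, Finset.card_empty, Nat.cast_zero]
    positivity
  set J : ℕ := Nat.log 2 (8 * N) + 1 with hJ
  have hJ1 : (1 : ℝ) ≤ J := by
    rw [hJ]
    push_cast
    have : (0 : ℝ) ≤ Nat.log 2 (8 * N) := by positivity
    linarith
  have h2J : (8 * N : ℝ) < 2 ^ J := by
    have := Nat.lt_pow_succ_log_self (b := 2) (by norm_num) (8 * N)
    rw [hJ]
    exact_mod_cast this
  set R : ℝ := ((W.card : ℕ) : ℝ) with hR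
  have hR1 : (1 : ℝ) ≤ R := by
    rw [hR]
    exact_mod_cast hne.card_pos
  have hV2N : V ≤ 2 * N := by
    obtain ⟨t, ht⟩ := hne
    exact (hWV t ht).trans (norm_Dx_le x hN b hb t)
  -- the codes
  choose rot hrot4 hrot using exists_rot
  set cd : ℕ → ℕ := fun t => 4 * t + rot (Dx x N b t) with hcd
  have hcd4 : ∀ t, cd t / 4 = t := by
    intro t
    have := hrot4 (Dx x N b t)
    simp only [hcd]
    omega
  have hcdinj : Function.Injective cd := by
    intro t t' h
    rw [← hcd4 t, ← hcd4 t', h]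
  set P : Finset ℕ := W.image cd with hP
  have hPcard : P.card = W.card := Finset.card_image_of_injective _ hcdinj
  have hPsub : P ⊆ range (4 * M) := by
    intro u hu
    obtain ⟨t, ht, rfl⟩ := mem_image.1 hu
    have h1 := hW t ht
    have h2 := hcd4 t
    rw [mem_range]
    omega
  have hPinj : Set.InjOn (fun u : ℕ => u / 4) P := by
    intro u hu v hv huv
    obtain ⟨t, _, rfl⟩ := mem_image.1 (mem_coe.1 hu)
    obtain ⟨t', _, rfl⟩ := mem_image.1 (mem_coe.1 hv)
    simp only [hcd4] at huv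
    rw [huv]
  -- the sum
  have hsum : R * V / 2 ≤ ∑ n ∈ Icc N (2 * N), ‖FP P (x n)‖ := by
    have h1 : ∑ t ∈ W, (Complex.I ^ (cd t) * Dx x N b t) = ∑ n ∈ Icc N (2 * N), b n * FP P (x n) := by
      unfold Dx FP
      simp only [Finset.mul_sum]
      rw [Finset.sum_comm]
      refine Finset.sum_congr rfl fun n _ => ?_
      rw [hP, Finset.sum_image (fun a _ b _ h => hcdinj h)]
      refine Finset.sum_congr rfl fun t _ => ?_
      rw [hcd4]
      ring
    have h2 : R * V / 2 ≤ (∑ t ∈ W, (Complex.I ^ (cd t) * Dx x N b t)).re := by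
      rw [Complex.re_sum]
      calc R * V / 2 = ∑ t ∈ W, V / 2 := by
            rw [Finset.sum_const, nsmul_eq_mul, hR]
            ring
        _ ≤ _ := by
            refine Finset.sum_le_sum fun t ht => ?_
            have h3 : Complex.I ^ (cd t) = Complex.I ^ (rot (Dx x N b t)) := by
              simp only [hcd]
              rw [pow_add, pow_mul, Complex.I_pow_four, one_pow, one_mul]
            rw [h3]
            have := hrot (Dx x N b t)
            have := hWV t ht
            linarith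
    refine h2.trans ((Complex.re_le_norm _).trans ?_)
    rw [h1]
    refine (norm_sum_le _ _).trans (Finset.sum_le_sum fun n _ => ?_)
    rw [norm_mul]
    have := hb n
    have h0 := norm_nonneg (FP P (x n))
    nlinarith
  set l : ℝ := R * V / (8 * N) with hl
  have hl0 : 0 < l := by positivity
  have hdy : ∀ n ∈ Icc N (2 * N), ‖FP P (x n)‖ ≤ l + ∑ j ∈ range J, (2 * (2 ^ j * l)) *
      (if 2 ^ j * l ≤ ‖FP P (x n)‖ then 1 else 0) := by
    intro n _
    have h1 := dyad hl0 (norm_nonneg (FP P (x n))) zero_le_one J (by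
      refine (norm_FP_le P _).trans_lt ?_
      rw [hPcard, ← hR, hl]
      have h2 : R * V / (8 * N) * (8 * N) = R * V := by field_simp
      calc R = R * 1 := (mul_one _).symm
        _ ≤ R * V := mul_le_mul_of_nonneg_left hV1 (by linarith)
        _ = (8 * N) * (R * V / (8 * N)) := by
            rw [mul_comm (8 * (N : ℝ))]
            exact h2.symm
        _ < 2 ^ J * (R * V / (8 * N)) := mul_lt_mul_of_pos_right h2J (by positivity))
    simpa only [Real.rpow_one] using h1
  have hdy2 : R * V / 4 ≤ ∑ j ∈ range J, (2 * (2 ^ j * l)) * lv x N P (2 ^ j * l) := by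
    have h1 := hsum.trans (Finset.sum_le_sum hdy)
    rw [Finset.sum_add_distrib, Finset.sum_const, nsmul_eq_mul, Finset.sum_comm] at h1
    have h2 : ∀ j ∈ range J, ∑ n ∈ Icc N (2 * N), (2 * (2 ^ j * l)) *
        (if 2 ^ j * l ≤ ‖FP P (x n)‖ then (1 : ℝ) else 0) =
        (2 * (2 ^ j * l)) * lv x N P (2 ^ j * l) := by
      intro j _
      rw [← Finset.mul_sum, Finset.sum_boole]
      rfl
    rw [Finset.sum_congr rfl h2] at h1
    have h3 : (((Icc N (2 * N)).card : ℕ) : ℝ) * l ≤ R * V / 4 := by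
      have h4 : (((Icc N (2 * N)).card : ℕ) : ℝ) ≤ 2 * N := by
        rw [Nat.card_Icc]
        have : 2 * N + 1 - N ≤ 2 * N := by omega
        exact_mod_cast this
      calc (((Icc N (2 * N)).card : ℕ) : ℝ) * l ≤ 2 * N * l := mul_le_mul_of_nonneg_right h4 hl0.le
        _ = R * V / 4 := by
          rw [hl]
          field_simp
          ring
    linarith
  -- the threshold
  set y : ℝ := 1024 * c * J * N / V with hy
  have hy0 : 0 < y := by positivity
  have hy1 : 128 * N / V ≤ y := by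
    rw [hy]
    apply div_le_div_of_nonneg_right _ hV0.le
    have : (1 : ℝ) ≤ c * J := one_le_mul_of_one_le_of_one_le hc hJ1
    nlinarith
  have hterm : ∀ j ∈ range J, (2 * (2 ^ j * l)) * lv x N P (2 ^ j * l) ≤
      R * (4 * c * N / l * (1 / 2) ^ j + (V / (16 * J) + 10 * B * y)) := by
    intro j _
    set lj : ℝ := 2 ^ j * l with hlj
    have hlj0 : 0 < lj := by positivity
    have hllj : l ≤ lj := by
      rw [hlj]
      exact le_mul_of_one_le_left hl0.le (one_le_pow₀ (by norm_num))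
    have hPR : (P.card : ℝ) = R := by rw [hPcard]
    rcases le_or_gt lj y with hcase | hcase
    · have h1 := G hN hc hB hG hPsub hPinj hlj0
      rw [hPR] at h1
      calc (2 * lj) * lv x N P lj ≤ (2 * lj) * (2 * c * N * R / lj ^ 2 + B * R) :=
            mul_le_mul_of_nonneg_left h1 (by positivity)
        _ = R * (4 * c * N / lj + 2 * B * lj) := by
            field_simp
            ring
        _ ≤ R * (4 * c * N / l * (1 / 2) ^ j + (V / (16 * J) + 10 * B * y)) := by
            apply mul_le_mul_of_nonneg_left _ (by linarith)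
            have h2 : 4 * c * N / lj = 4 * c * N / l * (1 / 2) ^ j := by
              rw [hlj, one_div, inv_pow]
              field_simp
            rw [h2]
            have h3 : 2 * B * lj ≤ 2 * B * y := mul_le_mul_of_nonneg_left hcase (by positivity)
            have h4 : 0 ≤ B * y := by positivity
            have h5 : 0 ≤ V / (16 * J) := by positivity
            linarith
    · have hq0 : 0 < y / lj := by positivity
      have hq1 : y / lj ≤ 1 := by
        rw [div_le_one hlj0]
        exact hcase.le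
      have hqll : y / lj * lj ^ 2 = y * lj := by field_simp
      have h1 := Hl hN hc hB hG hPsub hPinj hlj0 hq0 hq1 (by
        rw [hPR, hqll]
        calc 16 * R = (128 * N / V) * (R * V / (8 * N)) := by
              field_simp
              ring
          _ ≤ y * lj := mul_le_mul hy1 hllj (by positivity) hy0.le)
      rw [hPR, hqll] at h1
      calc (2 * lj) * lv x N P lj ≤
            (2 * lj) * (32 * c * N * R / (y * lj) + 4 * B * (y / lj) * R) :=
            mul_le_mul_of_nonneg_left h1 (by positivity)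
        _ = R * (64 * c * N / y + 8 * B * y) := by
            field_simp
            ring
        _ ≤ R * (4 * c * N / l * (1 / 2) ^ j + (V / (16 * J) + 10 * B * y)) := by
            apply mul_le_mul_of_nonneg_left _ (by linarith)
            have h2 : 64 * c * N / y = V / (16 * J) := by
              rw [hy]
              field_simp
              ring
            rw [h2]
            have h4 : 0 ≤ B * y := by positivity
            have h5 : 0 ≤ 4 * c * N / l * (1 / 2) ^ j := by positivity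
            linarith
  have h1 := hdy2.trans (Finset.sum_le_sum hterm)
  rw [← Finset.mul_sum, Finset.sum_add_distrib, ← Finset.mul_sum, Finset.sum_const, Finset.card_range,
    nsmul_eq_mul] at h1
  have h2 : ∑ j ∈ range J, ((1 : ℝ) / 2) ^ j ≤ 2 := sum_geometric_two_le J
  have h3 : 4 * c * N / l * ∑ j ∈ range J, ((1 : ℝ) / 2) ^ j ≤ 8 * c * N / l := by
    calc 4 * c * N / l * ∑ j ∈ range J, ((1 : ℝ) / 2) ^ j ≤ 4 * c * N / l * 2 :=
          mul_le_mul_of_nonneg_left h2 (by positivity)
      _ = 8 * c * N / l := by ring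
  have h4 : (J : ℝ) * (V / (16 * J) + 10 * B * y) ≤ V / 8 := by
    have h5 : (J : ℝ) * (V / (16 * J)) = V / 16 := by field_simp
    have h6 : (J : ℝ) * (10 * B * y) ≤ V / 16 := by
      have h7 : (J : ℝ) * (10 * B * y) = (163840 * c * B * (J : ℝ) ^ 2 * N) / (16 * V) := by
        rw [hy]
        field_simp
        ring
      rw [h7, div_le_div_iff₀ (by positivity) (by norm_num)]
      nlinarith
    rw [mul_add, h5]
    linarith
  have h5 : R * (V / 4) ≤ R * (8 * c * N / l + V / 8) := by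
    calc R * (V / 4) = R * V / 4 := by ring
      _ ≤ _ := h1
      _ ≤ _ := mul_le_mul_of_nonneg_left (add_le_add h3 h4) (by linarith)
  have h6 := le_of_mul_le_mul_left h5 (by linarith)
  have h7 : V / 8 ≤ 8 * c * N / l := by linarith
  rw [le_div_iff₀ hl0, hl] at h7
  rw [le_div_iff₀ (by positivity)]
  have h8 : V / 8 * (R * V / (8 * N)) * (64 * N) = R * V ^ 2 := by
    field_simp
    ring
  have h9 : V / 8 * (R * V / (8 * N)) * (64 * N) ≤ 8 * c * N * (64 * N) :=
    mul_le_mul_of_nonneg_right h7 (by positivity)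
  rw [h8] at h9
  linarith

end Pool.Agent.Helper22M
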