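import Pool.Agent.Helper22M.Det

/-!
# Moments of Dirichlet polynomials with randomly perturbed frequencies
-/

set_option autoImplicit false

open Finset Real MeasureTheory ProbabilityTheory

namespace Pool.Agent.Helper22M

theorem log_ge_one {N : ℕ} (hN : 3 ≤ N) : 1 ≤ Real.log N := by
  have h3 : (3 : ℝ) ≤ N := by exact_mod_cast hN
  rw [Real.le_log_iff_exp_le (by linarith)]
  have := Real.exp_one_lt_d9
  linarith

theorem J_le {N : ℕ} (hN : 3 ≤ N) : ((Nat.log 2 (8 * N) + 1 : ℕ) : ℝ) ≤ 6 * Real.log N := by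
  have h3 : (3 : ℝ) ≤ N := by exact_mod_cast hN
  have h1 : 2 ^ Nat.log 2 (8 * N) ≤ 8 * N := Nat.pow_log_le_self 2 (by omega)
  have h2 : ((2 : ℝ) ^ Nat.log 2 (8 * N)) ≤ 8 * N := by exact_mod_cast h1
  have h4 := Real.log_le_log (by positivity) h2
  rw [Real.log_pow, Real.log_mul (by norm_num) (by linarith)] at h4
  have h8 : Real.log 8 = 3 * Real.log 2 := by
    rw [show (8 : ℝ) = 2 ^ 3 by norm_num, Real.log_pow]
    norm_num
  rw [h8] at h4
  have hl := log_ge_one hN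
  have h5 := Real.log_two_gt_d9
  have h6 := Real.log_two_lt_d9
  push_cast
  nlinarith

theorem B_le {N T : ℕ} (hN : 3 ≤ N) (hT : 1 ≤ T) :
    Real.log (8 * ((T + 1 : ℕ) : ℝ) ^ 5 * N ^ 2) ≤ 11 * Real.log (N * T) := by
  have h3 : (3 : ℝ) ≤ N := by exact_mod_cast hN
  have hT1 : (1 : ℝ) ≤ T := by exact_mod_cast hT
  have h8 : Real.log 8 = 3 * Real.log 2 := by
    rw [show (8 : ℝ) = 2 ^ 3 by norm_num, Real.log_pow]
    norm_num
  rw [Real.log_mul (by positivity) (by positivity), Real.log_mul (by norm_num) (by positivity),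
    Real.log_pow, Real.log_pow, Real.log_mul (by linarith) (by linarith), h8]
  have h1 : Real.log ((T + 1 : ℕ) : ℝ) ≤ Real.log 2 + Real.log T := by
    rw [← Real.log_mul (by norm_num) (by linarith)]
    apply Real.log_le_log (by positivity)
    push_cast
    linarith
  have hl := log_ge_one hN
  have hlT : 0 ≤ Real.log T := Real.log_nonneg hT1
  have h6 := Real.log_two_lt_d9
  push_cast at h1 ⊢
  nlinarith

/-- the threshold -/
noncomputable def V0 (H : ℝ) (N T : ℕ) : ℝ := 50000 * Real.sqrt (H * N * Real.log (N * T)) * Real.log N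

theorem log_NT {N T : ℕ} (hN : 3 ≤ N) (hT : 1 ≤ T) : 1 ≤ Real.log (N * T) := by
  have h3 : (3 : ℝ) ≤ N := by exact_mod_cast hN
  have hT1 : (1 : ℝ) ≤ T := by exact_mod_cast hT
  rw [Real.log_mul (by linarith) (by linarith)]
  have hl := log_ge_one hN
  have hlT : 0 ≤ Real.log T := Real.log_nonneg hT1
  linarith

theorem V0_ge {H : ℝ} {N T : ℕ} (hH : 1 ≤ H) (hN : 3 ≤ N) (hT : 1 ≤ T) : 1 ≤ V0 H N T := by
  unfold V0
  have h3 : (3 : ℝ) ≤ N := by exact_mod_cast hN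
  have h1 : 1 ≤ Real.sqrt (H * N * Real.log (N * T)) := by
    rw [Real.one_le_sqrt]
    exact one_le_mul_of_one_le_of_one_le (one_le_mul_of_one_le_of_one_le hH (by linarith)) (log_NT hN hT)
  have h2 := log_ge_one hN
  have h4 : 1 ≤ Real.sqrt (H * N * Real.log (N * T)) * Real.log N :=
    one_le_mul_of_one_le_of_one_le h1 h2
  rw [mul_assoc]
  linarith

theorem V0_sq {H : ℝ} {N T : ℕ} (hH : 1 ≤ H) (hN : 3 ≤ N) (hT : 1 ≤ T) :
    163840 * (38 * H) * Real.log (8 * ((T + 1 : ℕ) : ℝ) ^ 5 * N ^ 2) *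
      ((Nat.log 2 (8 * N) + 1 : ℕ) : ℝ) ^ 2 * N ≤ V0 H N T ^ 2 := by
  have h3 : (3 : ℝ) ≤ N := by exact_mod_cast hN
  have hT1 : (1 : ℝ) ≤ T := by exact_mod_cast hT
  have hNT := log_NT hN hT
  have hl := log_ge_one hN
  have h1 : ((Nat.log 2 (8 * N) + 1 : ℕ) : ℝ) ^ 2 ≤ (6 * Real.log N) ^ 2 :=
    pow_le_pow_left₀ (by positivity) (J_le hN) 2
  have h2 : V0 H N T ^ 2 = 2500000000 * (H * N * Real.log (N * T)) * Real.log N ^ 2 := by
    unfold V0
    rw [mul_pow, mul_pow, Real.sq_sqrt (by positivity)]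
    ring
  rw [h2]
  have hB0 : 0 ≤ Real.log (8 * ((T + 1 : ℕ) : ℝ) ^ 5 * N ^ 2) := by
    apply Real.log_nonneg
    have h4 : (1 : ℝ) ≤ ((T + 1 : ℕ) : ℝ) ^ 5 := one_le_pow₀ (by push_cast; linarith)
    have h5 : (1 : ℝ) ≤ (N : ℝ) ^ 2 := one_le_pow₀ (by linarith)
    nlinarith
  calc 163840 * (38 * H) * Real.log (8 * ((T + 1 : ℕ) : ℝ) ^ 5 * N ^ 2) *
        ((Nat.log 2 (8 * N) + 1 : ℕ) : ℝ) ^ 2 * N
      ≤ 163840 * (38 * H) * (11 * Real.log (N * T)) * (6 * Real.log N) ^ 2 * N := by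
        gcongr
        exact B_le hN hT
    _ = 2465464320 * (H * N * Real.log (N * T)) * Real.log N ^ 2 := by ring
    _ ≤ 2500000000 * (H * N * Real.log (N * T)) * Real.log N ^ 2 := by
        have : 0 ≤ H * N * Real.log (N * T) := by positivity
        gcongr
        norm_num

/-- **Large values.** -/
theorem large {x : ℕ → ℝ} {N T : ℕ} {H : ℝ} (hH : 1 ≤ H) (hN : 3 ≤ N) (hT : 1 ≤ T)
    (hG : Good x N (T + 1) (38 * H) (Real.log (8 * ((T + 1 : ℕ) : ℝ) ^ 5 * N ^ 2))) {b : ℕ → ℂ}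
    (hb : ∀ n, ‖b n‖ ≤ 1) {V : ℝ} (hV : V0 H N T ≤ V) :
    (((Icc 1 T).filter (fun t => V ≤ ‖Dx x N b t‖)).card : ℝ) ≤ 50000 * H * N ^ 2 / V ^ 2 := by
  have h3 : (3 : ℝ) ≤ N := by exact_mod_cast hN
  have hT1 : (1 : ℝ) ≤ T := by exact_mod_cast hT
  have hV1 : 1 ≤ V := (V0_ge hH hN hT).trans hV
  have hB0 : 0 ≤ Real.log (8 * ((T + 1 : ℕ) : ℝ) ^ 5 * N ^ 2) := by
    apply Real.log_nonneg
    have h4 : (1 : ℝ) ≤ ((T + 1 : ℕ) : ℝ) ^ 5 := one_le_pow₀ (by push_cast; linarith)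
    have h5 : (1 : ℝ) ≤ (N : ℝ) ^ 2 := one_le_pow₀ (by linarith)
    nlinarith
  have h1 := LV (x := x) (N := N) (M := T + 1) (c := 38 * H) (by omega) (by linarith) hB0 hG hb hV1
    ((V0_sq hH hN hT).trans (pow_le_pow_left₀ (by linarith [V0_ge hH hN hT]) hV 2))
    (W := (Icc 1 T).filter (fun t => V ≤ ‖Dx x N b t‖))
    (fun t ht => by
      have := (mem_Icc.1 (mem_filter.1 ht).1).2
      omega)
    (fun t ht => (mem_filter.1 ht).2)
  refine h1.trans ?_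
  apply div_le_div_of_nonneg_right _ (by positivity)
  have : (0 : ℝ) ≤ H * N ^ 2 := by positivity
  nlinarith

/-- **Moments.** -/
theorem moment {x : ℕ → ℝ} {N T : ℕ} {H : ℝ} (hH : 1 ≤ H) (hN : 3 ≤ N) (hT : 1 ≤ T)
    (hG : Good x N (T + 1) (38 * H) (Real.log (8 * ((T + 1 : ℕ) : ℝ) ^ 5 * N ^ 2))) {b : ℕ → ℂ}
    (hb : ∀ n, ‖b n‖ ≤ 1) {q : ℝ} (hq : 2 ≤ q) :
    ∑ t ∈ Icc 1 T, ‖Dx x N b t‖ ^ q ≤ T * V0 H N T ^ q +
      ((Nat.log 2 (8 * N) + 1 : ℕ) : ℝ) * (4 ^ q * 50000 * H * (N : ℝ) ^ q) := by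
  have h3 : (3 : ℝ) ≤ N := by exact_mod_cast hN
  have hN0 : (0 : ℝ) < N := by linarith
  set v : ℝ := V0 H N T with hv
  have hv1 : 1 ≤ v := V0_ge hH hN hT
  set J : ℕ := Nat.log 2 (8 * N) + 1 with hJ
  have h2J : (8 * N : ℝ) < 2 ^ J := by
    have := Nat.lt_pow_succ_log_self (b := 2) (by norm_num) (8 * N)
    rw [hJ]
    exact_mod_cast this
  have hdy : ∀ t ∈ Icc 1 T, ‖Dx x N b t‖ ^ q ≤ v ^ q + ∑ j ∈ range J, (2 * (2 ^ j * v)) ^ q *
      (if 2 ^ j * v ≤ ‖Dx x N b t‖ then 1 else 0) := by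
    intro t _
    apply dyad (by linarith) (norm_nonneg _) (by linarith) J
    have h4 := norm_Dx_le x (by omega : 1 ≤ N) b hb t
    have h5 : (2 : ℝ) ^ J ≤ 2 ^ J * v := le_mul_of_one_le_right (by positivity) hv1
    linarith
  refine (Finset.sum_le_sum hdy).trans ?_
  rw [Finset.sum_add_distrib, Finset.sum_const, nsmul_eq_mul, Finset.sum_comm]
  have hcard : ((Icc 1 T).card : ℝ) = T := by simp
  rw [hcard]
  refine add_le_add le_rfl ?_
  calc ∑ j ∈ range J, ∑ t ∈ Icc 1 T, (2 * (2 ^ j * v)) ^ q *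
        (if 2 ^ j * v ≤ ‖Dx x N b t‖ then (1 : ℝ) else 0)
      ≤ ∑ j ∈ range J, (4 ^ q * 50000 * H * (N : ℝ) ^ q) := by
        refine Finset.sum_le_sum fun j _ => ?_
        rw [← Finset.mul_sum, Finset.sum_boole]
        set w : ℝ := 2 ^ j * v with hw
        have hvw : v ≤ w := le_mul_of_one_le_left (by linarith) (one_le_pow₀ (by norm_num))
        have hw0 : 0 < w := by linarith
        set F := (Icc 1 T).filter (fun t => w ≤ ‖Dx x N b t‖) with hF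
        rcases F.eq_empty_or_nonempty with h0 | hne
        · rw [h0, Finset.card_empty, Nat.cast_zero, mul_zero]
          positivity
        · obtain ⟨t, ht⟩ := hne
          have hw2 : w ≤ 2 * N := (mem_filter.1 ht).2.trans (norm_Dx_le x (by omega) b hb t)
          have h4 : (F.card : ℝ) ≤ 50000 * H * N ^ 2 / w ^ 2 := large hH hN hT hG hb hvw
          have h5 : w ^ q = w ^ (q - 2) * w ^ 2 := by
            rw [← Real.rpow_natCast w 2, ← Real.rpow_add hw0]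
            congr 1
            push_cast
            ring
          have h6 : w ^ (q - 2) ≤ (2 * N) ^ (q - 2) := Real.rpow_le_rpow hw0.le hw2 (by linarith)
          have h7 : (2 * N : ℝ) ^ (q - 2) * N ^ 2 ≤ 2 ^ q * (N : ℝ) ^ q := by
            have h8 : (N : ℝ) ^ q = (N : ℝ) ^ (q - 2) * N ^ 2 := by
              rw [← Real.rpow_natCast (N : ℝ) 2, ← Real.rpow_add hN0]
              congr 1
              push_cast
              ring
            rw [Real.mul_rpow (by norm_num) hN0.le, h8]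
            have h9 : (2 : ℝ) ^ (q - 2) ≤ 2 ^ q := Real.rpow_le_rpow_of_exponent_le (by norm_num) (by linarith)
            have h10 : (0 : ℝ) ≤ (N : ℝ) ^ (q - 2) * N ^ 2 := by positivity
            calc (2 : ℝ) ^ (q - 2) * (N : ℝ) ^ (q - 2) * N ^ 2 = 2 ^ (q - 2) * ((N : ℝ) ^ (q - 2) * N ^ 2) := by
                  ring
              _ ≤ 2 ^ q * ((N : ℝ) ^ (q - 2) * N ^ 2) := mul_le_mul_of_nonneg_right h9 h10
          calc (2 * w) ^ q * (F.card : ℝ) ≤ (2 * w) ^ q * (50000 * H * N ^ 2 / w ^ 2) :=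
                mul_le_mul_of_nonneg_left h4 (by positivity)
            _ = 2 ^ q * (50000 * H) * (w ^ (q - 2) * N ^ 2) := by
                rw [Real.mul_rpow (by norm_num) hw0.le, h5]
                field_simp
            _ ≤ 2 ^ q * (50000 * H) * ((2 * N) ^ (q - 2) * N ^ 2) := by gcongr
            _ ≤ 2 ^ q * (50000 * H) * (2 ^ q * (N : ℝ) ^ q) := by gcongr
            _ = 4 ^ q * 50000 * H * (N : ℝ) ^ q := by
                have : (4 : ℝ) ^ q = 2 ^ q * 2 ^ q := by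
                  rw [← Real.mul_rpow (by norm_num) (by norm_num)]
                  norm_num
                rw [this]
                ring
    _ = (J : ℝ) * (4 ^ q * 50000 * H * (N : ℝ) ^ q) := by
        rw [Finset.sum_const, Finset.card_range, nsmul_eq_mul]

/-- the inequality of Q1 from `Good` -/
theorem q1 {x : ℕ → ℝ} {h : ℕ → ℝ} (hh1 : ∀ n, 1 ≤ h n)
    (hev : ∀ᶠ N : ℕ in Filter.atTop, ∀ M : ℕ, 1 ≤ M →
      Good x N M (38 * h (2 * N)) (Real.log (8 * M ^ 5 * N ^ 2)))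
    (hsub : ∀ η : ℝ, 0 < η → ∃ C : ℝ, ∀ n : ℕ, 1 ≤ n → h n ≤ C * (n : ℝ) ^ η)
    (q A ε : ℝ) (hq : 2 ≤ q) (hA : 1 ≤ A) (hε : 0 < ε) :
    ∃ K : ℝ, ∀ N T : ℕ, 1 ≤ N → N ≤ T → (T : ℝ) ≤ (N : ℝ) ^ A → ∀ b : ℕ → ℂ, (∀ n, ‖b n‖ ≤ 1) →
      ∑ t ∈ Icc 1 T, ‖Dx x N b t‖ ^ q ≤
        K * (N : ℝ) ^ ε * ((N : ℝ) ^ q + (N : ℝ) ^ (q / 2) * T) := by
  obtain ⟨N₀, hN₀⟩ := Filter.eventually_atTop.1 hev
  set N₁ : ℕ := max N₀ 3 with hN₁
  have hq0 : 0 < q := by linarith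
  set η : ℝ := ε / (2 * q) with hη
  have hη0 : 0 < η := by positivity
  have hηq : 2 * η * q = ε := by
    rw [hη]
    field_simp
  obtain ⟨C, hC⟩ := hsub η hη0
  have hC0 : 0 < C := by
    have h1 := hC 1 le_rfl
    simp only [Nat.cast_one, Real.one_rpow, mul_one] at h1
    linarith [hh1 1]
  set K0 : ℝ := 50000 * Real.sqrt (C * 2 ^ η * ((A + 1) / η)) / η with hK0
  have hK00 : 0 ≤ K0 := by positivity
  set K2 : ℝ := 6 / η * (4 ^ q * 50000 * (C * 2 ^ η)) with hK2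
  have hK20 : 0 ≤ K2 := by positivity
  set K3 : ℝ := 2 ^ q * (N₁ : ℝ) ^ (q / 2) with hK3
  have hK30 : 0 ≤ K3 := by positivity
  refine ⟨K0 ^ q + K2 + K3, ?_⟩
  intro N T hN hNT hTA b hb
  have hN1 : (1 : ℝ) ≤ N := by exact_mod_cast hN
  have hN0 : (0 : ℝ) < N := by linarith
  have hT1 : 1 ≤ T := hN.trans hNT
  have hT1r : (1 : ℝ) ≤ T := by exact_mod_cast hT1
  have hNε : 1 ≤ (N : ℝ) ^ ε := Real.one_le_rpow hN1 hε.le
  have hNq : 0 ≤ (N : ℝ) ^ q := by positivity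
  have hNq2 : 0 ≤ (N : ℝ) ^ (q / 2) * T := by positivity
  rcases lt_or_ge N N₁ with hlt | hge
  · -- small `N`
    have hNN₁ : (N : ℝ) ≤ N₁ := by exact_mod_cast hlt.le
    have h1 : ∑ t ∈ Icc 1 T, ‖Dx x N b t‖ ^ q ≤ T * (2 * N) ^ q := by
      calc ∑ t ∈ Icc 1 T, ‖Dx x N b t‖ ^ q ≤ ∑ t ∈ Icc 1 T, (2 * N : ℝ) ^ q :=
            Finset.sum_le_sum fun t _ =>
              Real.rpow_le_rpow (norm_nonneg _) (norm_Dx_le x hN b hb t) hq0.le
        _ = T * (2 * N) ^ q := by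
            rw [Finset.sum_const, nsmul_eq_mul]
            simp
    have h2 : (T : ℝ) * (2 * N) ^ q ≤ K3 * ((N : ℝ) ^ (q / 2) * T) := by
      have h3 : (2 * N : ℝ) ^ q = 2 ^ q * ((N : ℝ) ^ (q / 2) * (N : ℝ) ^ (q / 2)) := by
        rw [Real.mul_rpow (by norm_num) hN0.le, ← Real.rpow_add hN0]
        congr 2
        ring
      have h4 : (N : ℝ) ^ (q / 2) ≤ (N₁ : ℝ) ^ (q / 2) := Real.rpow_le_rpow hN0.le hNN₁ (by linarith)
      rw [h3, hK3]
      calc (T : ℝ) * (2 ^ q * ((N : ℝ) ^ (q / 2) * (N : ℝ) ^ (q / 2))) =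
            2 ^ q * (N : ℝ) ^ (q / 2) * ((N : ℝ) ^ (q / 2) * T) := by ring
        _ ≤ 2 ^ q * (N₁ : ℝ) ^ (q / 2) * ((N : ℝ) ^ (q / 2) * T) := by gcongr
    calc ∑ t ∈ Icc 1 T, ‖Dx x N b t‖ ^ q ≤ K3 * ((N : ℝ) ^ (q / 2) * T) := h1.trans h2
      _ ≤ K3 * ((N : ℝ) ^ q + (N : ℝ) ^ (q / 2) * T) := by
          apply mul_le_mul_of_nonneg_left _ hK30
          linarith
      _ = K3 * 1 * ((N : ℝ) ^ q + (N : ℝ) ^ (q / 2) * T) := by ring
      _ ≤ (K0 ^ q + K2 + K3) * (N : ℝ) ^ ε * ((N : ℝ) ^ q + (N : ℝ) ^ (q / 2) * T) := by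
          apply mul_le_mul_of_nonneg_right _ (by positivity)
          apply mul_le_mul _ hNε (by norm_num) (by positivity)
          have : 0 ≤ K0 ^ q := by positivity
          linarith
  · have hN3 : 3 ≤ N := (le_max_right _ _).trans hge
    have hG := hN₀ N ((le_max_left _ _).trans hge) (T + 1) (by omega)
    have h1 := moment (hh1 (2 * N)) hN3 hT1 hG hb hq
    have hh2 : h (2 * N) ≤ C * 2 ^ η * (N : ℝ) ^ η := by
      have h2 := hC (2 * N) (by omega)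
      push_cast at h2
      rw [Real.mul_rpow (by norm_num) hN0.le] at h2
      linarith
    have hlog : Real.log N ≤ (N : ℝ) ^ η / η := Real.log_le_rpow_div hN0.le hη0
    have hlog0 : 0 ≤ Real.log N := by linarith [log_ge_one hN3]
    have hlogNT : Real.log (N * T) ≤ (A + 1) * Real.log N := by
      rw [Real.log_mul (by linarith) (by linarith)]
      have h2 := Real.log_le_log (by linarith) hTA
      rw [Real.log_rpow hN0] at h2
      linarith
    have hlogNT2 : Real.log (N * T) ≤ (A + 1) / η * (N : ℝ) ^ η := by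
      refine hlogNT.trans ?_
      calc (A + 1) * Real.log N ≤ (A + 1) * ((N : ℝ) ^ η / η) :=
            mul_le_mul_of_nonneg_left hlog (by linarith)
        _ = _ := by ring
    have hV : V0 (h (2 * N)) N T ≤ K0 * (N : ℝ) ^ (2 * η) * (N : ℝ) ^ (1 / 2 : ℝ) := by
      have h2 : Real.sqrt (h (2 * N) * N * Real.log (N * T)) ≤
          Real.sqrt (C * 2 ^ η * ((A + 1) / η)) * (N : ℝ) ^ η * (N : ℝ) ^ (1 / 2 : ℝ) := by
        have h3 : h (2 * N) * N * Real.log (N * T) ≤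
            (C * 2 ^ η * (N : ℝ) ^ η) * N * ((A + 1) / η * (N : ℝ) ^ η) := by
          have h4 : 0 ≤ Real.log (N * T) := by linarith [log_NT hN3 hT1]
          have h5 : 0 ≤ h (2 * N) := by linarith [hh1 (2 * N)]
          gcongr
        have h4 : (C * 2 ^ η * (N : ℝ) ^ η) * N * ((A + 1) / η * (N : ℝ) ^ η) =
            (C * 2 ^ η * ((A + 1) / η)) * (((N : ℝ) ^ η) ^ 2 * N) := by ring
        refine (Real.sqrt_le_sqrt h3).trans (le_of_eq ?_)
        rw [h4, Real.sqrt_mul (by positivity : 0 ≤ C * 2 ^ η * ((A + 1) / η)) (((N : ℝ) ^ η) ^ 2 * N),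
          Real.sqrt_mul (by positivity : 0 ≤ ((N : ℝ) ^ η) ^ 2) (N : ℝ), Real.sqrt_sq (by positivity),
          Real.sqrt_eq_rpow (N : ℝ)]
        ring
      unfold V0
      calc 50000 * Real.sqrt (h (2 * N) * N * Real.log (N * T)) * Real.log N ≤
            50000 * (Real.sqrt (C * 2 ^ η * ((A + 1) / η)) * (N : ℝ) ^ η * (N : ℝ) ^ (1 / 2 : ℝ)) *
              ((N : ℝ) ^ η / η) := by gcongr
        _ = K0 * ((N : ℝ) ^ η * (N : ℝ) ^ η) * (N : ℝ) ^ (1 / 2 : ℝ) := by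
            rw [hK0]
            ring
        _ = K0 * (N : ℝ) ^ (2 * η) * (N : ℝ) ^ (1 / 2 : ℝ) := by
            rw [← Real.rpow_add hN0]
            congr 3
            ring
    have hV0 : 0 ≤ V0 (h (2 * N)) N T := by linarith [V0_ge (hh1 (2 * N)) hN3 hT1]
    have hVq : V0 (h (2 * N)) N T ^ q ≤ K0 ^ q * (N : ℝ) ^ ε * (N : ℝ) ^ (q / 2) := by
      refine (Real.rpow_le_rpow hV0 hV hq0.le).trans (le_of_eq ?_)
      rw [Real.mul_rpow (by positivity) (by positivity), Real.mul_rpow hK00 (by positivity),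
        ← Real.rpow_mul hN0.le, ← Real.rpow_mul hN0.le, hηq]
      congr 2
      ring
    have hJ : ((Nat.log 2 (8 * N) + 1 : ℕ) : ℝ) ≤ 6 / η * (N : ℝ) ^ η := by
      refine (J_le hN3).trans ?_
      calc 6 * Real.log N ≤ 6 * ((N : ℝ) ^ η / η) := mul_le_mul_of_nonneg_left hlog (by norm_num)
        _ = _ := by ring
    have h2 : ((Nat.log 2 (8 * N) + 1 : ℕ) : ℝ) * (4 ^ q * 50000 * h (2 * N) * (N : ℝ) ^ q) ≤
        K2 * (N : ℝ) ^ ε * (N : ℝ) ^ q := by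
      calc ((Nat.log 2 (8 * N) + 1 : ℕ) : ℝ) * (4 ^ q * 50000 * h (2 * N) * (N : ℝ) ^ q) ≤
            (6 / η * (N : ℝ) ^ η) * (4 ^ q * 50000 * (C * 2 ^ η * (N : ℝ) ^ η) * (N : ℝ) ^ q) := by
            have h5 : 0 ≤ h (2 * N) := by linarith [hh1 (2 * N)]
            gcongr
        _ = K2 * ((N : ℝ) ^ η * (N : ℝ) ^ η) * (N : ℝ) ^ q := by
            rw [hK2]
            ring
        _ = K2 * (N : ℝ) ^ (2 * η) * (N : ℝ) ^ q := by
            rw [← Real.rpow_add hN0]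
            congr 3
            ring
        _ ≤ K2 * (N : ℝ) ^ ε * (N : ℝ) ^ q := by
            have h6 : 2 * η ≤ ε := by
              rw [← hηq]
              have : 0 ≤ 2 * η := by linarith
              nlinarith
            have h7 : (N : ℝ) ^ (2 * η) ≤ (N : ℝ) ^ ε := Real.rpow_le_rpow_of_exponent_le hN1 h6
            gcongr
    have h3 : (T : ℝ) * V0 (h (2 * N)) N T ^ q ≤ K0 ^ q * (N : ℝ) ^ ε * ((N : ℝ) ^ (q / 2) * T) := by
      calc (T : ℝ) * V0 (h (2 * N)) N T ^ q ≤ T * (K0 ^ q * (N : ℝ) ^ ε * (N : ℝ) ^ (q / 2)) :=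
            mul_le_mul_of_nonneg_left hVq (by linarith)
        _ = _ := by ring
    have hK0q : 0 ≤ K0 ^ q := by positivity
    have e1 : 0 ≤ K0 ^ q * (N : ℝ) ^ ε * (N : ℝ) ^ q := by positivity
    have e2 : 0 ≤ K2 * (N : ℝ) ^ ε * ((N : ℝ) ^ (q / 2) * T) := by positivity
    have e3 : 0 ≤ K3 * (N : ℝ) ^ ε * ((N : ℝ) ^ q + (N : ℝ) ^ (q / 2) * T) := by positivity
    calc ∑ t ∈ Icc 1 T, ‖Dx x N b t‖ ^ q ≤ K0 ^ q * (N : ℝ) ^ ε * ((N : ℝ) ^ (q / 2) * T) +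
          K2 * (N : ℝ) ^ ε * (N : ℝ) ^ q := by linarith
      _ ≤ (K0 ^ q + K2 + K3) * (N : ℝ) ^ ε * ((N : ℝ) ^ q + (N : ℝ) ^ (q / 2) * T) := by
          nlinarith

end Pool.Agent.Helper22M
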