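import Pool.Agent.Helper22M.Trig

/-!
# Level sets of sparse trigonometric polynomials at random points

The points are `log (n + ξ_n)`, `N ≤ n ≤ 2N`, with independent `ξ_n ∈ [0,1]` with bounded densities. Almost
surely, for all large `N`, all trigonometric polynomials of degree `< M = N ^ A + 1` with coefficients
`1, i, -1, -i` have level sets of the expected size.
-/

set_option autoImplicit false

open Finset MeasureTheory Real ProbabilityTheory

namespace Pool.Agent.Helper22M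

variable {Ω : Type*} [MeasurableSpace Ω] {μ : Measure Ω} [IsProbabilityMeasure μ] {ξ : ℕ → Ω → ℝ}

/-- the indicator of a large value at the point `log (n + u)` -/
noncomputable def gI (P : Finset ℕ) (s : ℝ) (n : ℕ) (u : ℝ) : ℝ :=
  if s ≤ ‖FP P (Real.log (n + u))‖ ^ 2 then 1 else 0

theorem meas_set (P : Finset ℕ) (s : ℝ) (n : ℕ) :
    MeasurableSet {u : ℝ | s ≤ ‖FP P (Real.log (n + u))‖ ^ 2} := by
  apply measurableSet_le measurable_const
  have h1 : Measurable fun u : ℝ => Real.log (n + u) := by fun_prop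
  exact (((FP_cont P).measurable.comp h1).norm).pow_const 2

theorem gI_meas (P : Finset ℕ) (s : ℝ) (n : ℕ) : Measurable (gI P s n) := by
  unfold gI
  exact Measurable.ite (meas_set P s n) measurable_const measurable_const

omit [IsProbabilityMeasure μ] in
theorem p_bound (h01 : ∀ n ω, 0 ≤ ξ n ω ∧ ξ n ω ≤ 1) {H : ℝ} (hH0 : 0 ≤ H)
    (P : Finset ℕ) (s : ℝ) (hs : 0 < s) (n : ℕ) (hn : 1 ≤ n)
    (hH : ∀ s : Set ℝ, MeasurableSet s → μ (ξ n ⁻¹' s) ≤ ENNReal.ofReal H * volume s) :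
    μ.real {ω | s ≤ ‖FP P (Real.log (n + ξ n ω))‖ ^ 2} ≤
      H / s * ∫ y in (n : ℝ)..((n + 1 : ℕ) : ℝ), ‖FP P (Real.log y)‖ ^ 2 := by
  have hn1 : (1 : ℝ) ≤ n := by exact_mod_cast hn
  set S : Set ℝ := {u : ℝ | s ≤ ‖FP P (Real.log (n + u))‖ ^ 2} ∩ Set.Icc 0 1 with hS
  have hSm : MeasurableSet S := (meas_set P s n).inter measurableSet_Icc
  have hE : {ω | s ≤ ‖FP P (Real.log (n + ξ n ω))‖ ^ 2} = ξ n ⁻¹' S := by
    ext ω
    simp only [Set.mem_ofPred_eq, hS, Set.mem_preimage, Set.mem_inter_iff, Set.mem_Icc]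
    exact ⟨fun h => ⟨h, h01 n ω⟩, fun h => h.1⟩
  rw [hE]
  have hfin : volume S ≠ ⊤ := by
    refine ne_top_of_le_ne_top ?_ (measure_mono (t := Set.Icc (0 : ℝ) 1) Set.inter_subset_right)
    rw [Real.volume_Icc]
    exact ENNReal.ofReal_ne_top
  have h1 : μ.real (ξ n ⁻¹' S) ≤ H * volume.real S := by
    unfold Measure.real
    have := ENNReal.toReal_mono (ENNReal.mul_ne_top ENNReal.ofReal_ne_top hfin) (hH S hSm)
    rwa [ENNReal.toReal_mul, ENNReal.toReal_ofReal hH0] at this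
  have hlogc : ContinuousOn (fun u : ℝ => ‖FP P (Real.log (n + u))‖ ^ 2) (Set.Icc 0 1) := by
    have h2 : ContinuousOn (fun u : ℝ => Real.log (n + u)) (Set.Icc 0 1) := by
      intro u hu
      apply ContinuousAt.continuousWithinAt
      apply ContinuousAt.log (by fun_prop)
      have := hu.1
      intro h
      linarith
    exact ((FP_cont P).norm.pow 2).comp_continuousOn h2
  have h2 : s * volume.real S ≤ ∫ u in Set.Icc (0 : ℝ) 1, ‖FP P (Real.log (n + u))‖ ^ 2 := by
    have h3 := mul_meas_ge_le_integral_of_nonneg (μ := volume.restrict (Set.Icc (0 : ℝ) 1))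
      (f := fun u : ℝ => ‖FP P (Real.log (n + u))‖ ^ 2)
      (Filter.Eventually.of_forall fun u => by positivity)
      (hlogc.integrableOn_Icc) s
    have h4 : (volume.restrict (Set.Icc (0 : ℝ) 1)).real {u | s ≤ ‖FP P (Real.log (n + u))‖ ^ 2} =
        volume.real S := by
      unfold Measure.real
      rw [Measure.restrict_apply (meas_set P s n)]
    rw [h4] at h3
    exact h3
  have h5 : ∫ u in Set.Icc (0 : ℝ) 1, ‖FP P (Real.log (n + u))‖ ^ 2 =
      ∫ y in (n : ℝ)..((n + 1 : ℕ) : ℝ), ‖FP P (Real.log y)‖ ^ 2 := by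
    rw [integral_Icc_eq_integral_Ioc, ← intervalIntegral.integral_of_le zero_le_one]
    rw [intervalIntegral.integral_comp_add_left (fun y => ‖FP P (Real.log y)‖ ^ 2) (n : ℝ)]
    push_cast
    rw [add_zero]
  rw [h5] at h2
  calc μ.real (ξ n ⁻¹' S) ≤ H * volume.real S := h1
    _ = H / s * (s * volume.real S) := by field_simp
    _ ≤ _ := mul_le_mul_of_nonneg_left h2 (by positivity)

omit [IsProbabilityMeasure μ] in
theorem sum_p (h01 : ∀ n ω, 0 ≤ ξ n ω ∧ ξ n ω ≤ 1) {H : ℝ} (hH0 : 0 ≤ H)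
    (P : Finset ℕ) (hP : Set.InjOn (fun u : ℕ => u / 4) P) (s : ℝ) (hs : 0 < s) (N : ℕ) (hN : 1 ≤ N)
    (hH : ∀ n ∈ Icc N (2 * N), ∀ s : Set ℝ, MeasurableSet s →
      μ (ξ n ⁻¹' s) ≤ ENNReal.ofReal H * volume s) :
    ∑ n ∈ Icc N (2 * N), μ.real {ω | s ≤ ‖FP P (Real.log (n + ξ n ω))‖ ^ 2} ≤
      19 * H * N * P.card / s := by
  have hN1 : (1 : ℝ) ≤ N := by exact_mod_cast hN
  have hI : Icc N (2 * N) = Ico N (2 * N + 1) := by
    ext n
    simp only [mem_Icc, mem_Ico]
    omega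
  calc ∑ n ∈ Icc N (2 * N), μ.real {ω | s ≤ ‖FP P (Real.log (n + ξ n ω))‖ ^ 2} ≤
      ∑ n ∈ Icc N (2 * N), H / s * ∫ y in (n : ℝ)..((n + 1 : ℕ) : ℝ), ‖FP P (Real.log y)‖ ^ 2 := by
        refine Finset.sum_le_sum fun n hn => ?_
        exact p_bound h01 hH0 P s hs n (hN.trans (mem_Icc.1 hn).1) (hH n hn)
    _ = H / s * ∫ y in (N : ℝ)..(2 * N + 1), ‖FP P (Real.log y)‖ ^ 2 := by
        rw [← Finset.mul_sum, hI]
        congr 1
        rw [intervalIntegral.sum_integral_adjacent_intervals_Ico (f := fun y => ‖FP P (Real.log y)‖ ^ 2)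
          (a := fun n : ℕ => (n : ℝ)) (m := N) (n := 2 * N + 1) (by omega)]
        · push_cast
          rfl
        · intro k hk
          have hk1 : (1 : ℝ) ≤ k := by exact_mod_cast hN.trans hk.1
          apply ContinuousOn.intervalIntegrable
          have h2 : ContinuousOn Real.log (Set.uIcc (k : ℝ) ((k + 1 : ℕ) : ℝ)) := by
            rw [Set.uIcc_of_le (by push_cast; linarith)]
            intro u hu
            apply ContinuousAt.continuousWithinAt
            apply Real.continuousAt_log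
            have := hu.1
            intro h
            linarith
          exact ((FP_cont P).norm.pow 2).comp_continuousOn h2
    _ ≤ H / s * ((2 * N + 1) * (2 * π * P.card)) :=
        mul_le_mul_of_nonneg_left (ms2 P hP N hN) (by positivity)
    _ ≤ 19 * H * N * P.card / s := by
        rw [div_mul_eq_mul_div]
        apply div_le_div_of_nonneg_right _ hs.le
        have h1 : (2 * (N : ℝ) + 1) * (2 * π * P.card) ≤ (3 * N) * (2 * π * P.card) :=
          mul_le_mul_of_nonneg_right (by linarith) (by positivity)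
        have h2 : (3 * (N : ℝ)) * (2 * π * P.card) ≤ 19 * N * P.card := by
          have h3 : π ≤ 3.15 := by linarith [Real.pi_lt_d2]
          have h4 : (0 : ℝ) ≤ N * P.card := by positivity
          nlinarith
        calc H * ((2 * (N : ℝ) + 1) * (2 * π * P.card)) ≤ H * (19 * N * P.card) :=
              mul_le_mul_of_nonneg_left (h1.trans h2) hH0
          _ = _ := by ring

/-- the number of large values -/
noncomputable def cnt (ξ : ℕ → Ω → ℝ) (P : Finset ℕ) (s : ℝ) (N : ℕ) (ω : Ω) : ℝ :=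
  ∑ n ∈ Icc N (2 * N), gI P s n (ξ n ω)

omit [MeasurableSpace Ω] in
theorem cnt_eq (ξ : ℕ → Ω → ℝ) (P : Finset ℕ) (s : ℝ) (N : ℕ) (ω : Ω) :
    cnt ξ P s N ω = (((Icc N (2 * N)).filter
      (fun n => s ≤ ‖FP P (Real.log (n + ξ n ω))‖ ^ 2)).card : ℝ) := by
  unfold cnt gI
  rw [Finset.sum_boole]

theorem mgf_le (hm : ∀ n, Measurable (ξ n)) (P : Finset ℕ) (s : ℝ) (n : ℕ) :
    mgf (gI P s n ∘ ξ n) μ 1 ≤ Real.exp (2 * μ.real {ω | s ≤ ‖FP P (Real.log (n + ξ n ω))‖ ^ 2}) := by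
  have hEm : MeasurableSet {ω | s ≤ ‖FP P (Real.log (n + ξ n ω))‖ ^ 2} := (hm n) (meas_set P s n)
  have hXm : Measurable (gI P s n ∘ ξ n) := (gI_meas P s n).comp (hm n)
  have hXi : Integrable (gI P s n ∘ ξ n) μ := by
    apply Integrable.of_bound hXm.aestronglyMeasurable 1
    refine Filter.Eventually.of_forall fun ω => ?_
    simp only [Function.comp_apply, gI]
    split_ifs <;> simp
  have h1 : mgf (gI P s n ∘ ξ n) μ 1 ≤ ∫ ω, (1 + 2 * (gI P s n ∘ ξ n) ω) ∂μ := by
    unfold mgf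
    apply integral_mono
    · apply Integrable.of_bound (((hXm.const_mul 1).exp).aestronglyMeasurable) (Real.exp 1)
      refine Filter.Eventually.of_forall fun ω => ?_
      simp only [Function.comp_apply, gI]
      rw [Real.norm_eq_abs, abs_of_pos (Real.exp_pos _)]
      apply Real.exp_le_exp.2
      split_ifs <;> norm_num
    · exact (integrable_const _).add (hXi.const_mul 2)
    · intro ω
      simp only [Function.comp_apply, gI]
      split_ifs
      · have := Real.exp_one_lt_d9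
        simp only [mul_one]
        linarith
      · simp
  have h2 : ∫ ω, (1 + 2 * (gI P s n ∘ ξ n) ω) ∂μ =
      1 + 2 * μ.real {ω | s ≤ ‖FP P (Real.log (n + ξ n ω))‖ ^ 2} := by
    rw [integral_add (integrable_const _) (hXi.const_mul 2), integral_const_mul]
    congr 1
    · simp
    · congr 1
      have : (gI P s n ∘ ξ n) = Set.indicator {ω | s ≤ ‖FP P (Real.log (n + ξ n ω))‖ ^ 2}
          (fun _ => (1 : ℝ)) := by
        ext ω
        simp only [Function.comp_apply, gI, Set.indicator, Set.mem_ofPred_eq]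
      rw [this, integral_indicator_const _ hEm]
      simp
  rw [h2] at h1
  refine h1.trans ?_
  have := Real.add_one_le_exp (2 * μ.real {ω | s ≤ ‖FP P (Real.log (n + ξ n ω))‖ ^ 2})
  linarith

theorem chern (hm : ∀ n, Measurable (ξ n)) (hi : iIndepFun ξ μ)
    (P : Finset ℕ) (s : ℝ) (N : ℕ) (m : ℝ) :
    μ.real {ω | m ≤ cnt ξ P s N ω} ≤ Real.exp (-m + 2 * ∑ n ∈ Icc N (2 * N),
      μ.real {ω | s ≤ ‖FP P (Real.log (n + ξ n ω))‖ ^ 2}) := by
  have hX : iIndepFun (fun n => gI P s n ∘ ξ n) μ := hi.comp _ (gI_meas P s)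
  have hXm : ∀ n, Measurable ((fun n => gI P s n ∘ ξ n) n) := fun n => (gI_meas P s n).comp (hm n)
  have hsum : (fun ω => cnt ξ P s N ω) = ∑ n ∈ Icc N (2 * N), (fun n => gI P s n ∘ ξ n) n := by
    ext ω
    simp only [cnt, Finset.sum_apply, Function.comp_apply]
  have h1 := measure_ge_le_exp_mul_mgf (μ := μ) (X := fun ω => cnt ξ P s N ω) (t := 1) m zero_le_one (by
    have hcm : Measurable (fun ω => cnt ξ P s N ω) := by
      unfold cnt
      exact Finset.measurable_sum _ fun n _ => (gI_meas P s n).comp (hm n)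
    apply Integrable.of_bound (((hcm.const_mul 1).exp).aestronglyMeasurable)
      (Real.exp ((Icc N (2 * N)).card))
    refine Filter.Eventually.of_forall fun ω => ?_
    rw [Real.norm_eq_abs, abs_of_pos (Real.exp_pos _)]
    apply Real.exp_le_exp.2
    rw [one_mul, cnt_eq]
    exact_mod_cast Finset.card_filter_le _ _)
  rw [hsum, hX.mgf_sum hXm] at h1
  have h2 : ∏ n ∈ Icc N (2 * N), mgf ((fun n => gI P s n ∘ ξ n) n) μ 1 ≤
      ∏ n ∈ Icc N (2 * N), Real.exp (2 * μ.real {ω | s ≤ ‖FP P (Real.log (n + ξ n ω))‖ ^ 2}) :=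
    Finset.prod_le_prod (fun n _ => mgf_nonneg) fun n _ => mgf_le hm P s n
  rw [← Real.exp_sum, ← Finset.mul_sum] at h2
  refine h1.trans ?_
  rw [Real.exp_add]
  refine mul_le_mul (le_of_eq (by rw [neg_one_mul])) h2 ?_ (Real.exp_pos _).le
  exact Finset.prod_nonneg fun n _ => mgf_nonneg

/-- all level sets are small -/
def Good (x : ℕ → ℝ) (N M : ℕ) (c B : ℝ) : Prop :=
  ∀ P : Finset ℕ, P ⊆ range (4 * M) → Set.InjOn (fun u : ℕ => u / 4) P → ∀ s ∈ Icc 1 (M ^ 2),
    (((Icc N (2 * N)).filter (fun n => (s : ℝ) ≤ ‖FP P (x n)‖ ^ 2)).card : ℝ) ≤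
      c * N * P.card / s + B * P.card

theorem union (hm : ∀ n, Measurable (ξ n)) (hi : iIndepFun ξ μ)
    (h01 : ∀ n ω, 0 ≤ ξ n ω ∧ ξ n ω ≤ 1) {H : ℝ} (hH0 : 0 ≤ H)
    (N M : ℕ) (hN : 1 ≤ N) (hM : 1 ≤ M)
    (hH : ∀ n ∈ Icc N (2 * N), ∀ s : Set ℝ, MeasurableSet s →
      μ (ξ n ⁻¹' s) ≤ ENNReal.ofReal H * volume s) :
    μ {ω | ¬ Good (fun n => Real.log (n + ξ n ω)) N M (38 * H) (Real.log (8 * M ^ 5 * N ^ 2))} ≤
      ENNReal.ofReal (1 / ((M : ℝ) ^ 2 * (N : ℝ) ^ 2)) := by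
  classical
  have hN1 : (1 : ℝ) ≤ N := by exact_mod_cast hN
  have hM1 : (1 : ℝ) ≤ M := by exact_mod_cast hM
  set Y : ℝ := 8 * M ^ 5 * N ^ 2 with hY
  have hY0 : 0 < Y := by positivity
  set B : ℝ := Real.log Y with hB
  have hBe : Real.exp (-B) = 1 / Y := by
    rw [Real.exp_neg, hB, Real.exp_log hY0, one_div]
  -- the bad events
  set QQ : Finset (Finset ℕ) := ((range (4 * M)).powerset.erase ∅).filter
    (fun P => Set.InjOn (fun u : ℕ => u / 4) (P : Set ℕ)) with hQQ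
  have hsub : {ω | ¬ Good (fun n => Real.log (n + ξ n ω)) N M (38 * H) B} ⊆
      ⋃ s ∈ Icc 1 (M ^ 2), ⋃ P ∈ QQ,
        {ω | 38 * H * N * P.card / (s : ℝ) + B * P.card ≤ cnt ξ P (s : ℝ) N ω} := by
    intro ω hω
    simp only [Set.mem_ofPred_eq, Good] at hω
    push Not at hω
    obtain ⟨P, hP, hPi, s, hs, hlt⟩ := hω
    have hs1 : 1 ≤ s := (mem_Icc.1 hs).1
    simp only [Set.mem_iUnion]
    refine ⟨s, hs, P, ?_, ?_⟩
    · rw [hQQ, mem_filter, mem_erase, mem_powerset]
      refine ⟨⟨?_, hP⟩, hPi⟩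
      rintro rfl
      simp only [Finset.card_empty, Nat.cast_zero, mul_zero, zero_div, add_zero] at hlt
      rw [Nat.cast_pos, Finset.card_pos] at hlt
      obtain ⟨n, hn⟩ := hlt
      have h0 := (mem_filter.1 hn).2
      simp only [FP, Finset.sum_empty, norm_zero] at h0
      have : (1 : ℝ) ≤ s := by exact_mod_cast hs1
      norm_num at h0
      omega
    · simp only [Set.mem_ofPred_eq]
      rw [cnt_eq]
      exact hlt.le
  refine (measure_mono hsub).trans ?_
  have hone : ∀ s ∈ Icc 1 (M ^ 2), ∀ P ∈ QQ,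
      μ {ω | 38 * H * N * P.card / (s : ℝ) + B * P.card ≤ cnt ξ P (s : ℝ) N ω} ≤
        ENNReal.ofReal ((1 / Y) ^ P.card) := by
    intro s hs P hP
    have hs1 : (1 : ℝ) ≤ s := by exact_mod_cast (mem_Icc.1 hs).1
    have hPi : Set.InjOn (fun u : ℕ => u / 4) (P : Set ℕ) := (mem_filter.1 hP).2
    rw [← ofReal_measureReal (measure_ne_top μ _)]
    apply ENNReal.ofReal_le_ofReal
    refine (chern hm hi P s N _).trans ?_
    have h1 := sum_p h01 hH0 P hPi (s : ℝ) (by linarith) N hN hH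
    calc Real.exp (-(38 * H * N * P.card / (s : ℝ) + B * P.card) + 2 * ∑ n ∈ Icc N (2 * N),
          μ.real {ω | (s : ℝ) ≤ ‖FP P (Real.log (n + ξ n ω))‖ ^ 2})
        ≤ Real.exp ((P.card : ℝ) * (-B)) := by
          apply Real.exp_le_exp.2
          have h2 : 38 * H * N * P.card / (s : ℝ) = 2 * (19 * H * N * P.card / s) := by ring
          rw [h2]
          linarith
      _ = (1 / Y) ^ P.card := by
          rw [Real.exp_nat_mul, hBe]
  refine (measure_biUnion_finset_le _ _).trans ?_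
  have h2 : ∀ s ∈ Icc 1 (M ^ 2), μ (⋃ P ∈ QQ,
      {ω | 38 * H * N * P.card / (s : ℝ) + B * P.card ≤ cnt ξ P (s : ℝ) N ω}) ≤
        ENNReal.ofReal (1 / (M ^ 4 * N ^ 2)) := by
    intro s hs
    refine (measure_biUnion_finset_le _ _).trans ?_
    refine (Finset.sum_le_sum (hone s hs)).trans ?_
    rw [← ENNReal.ofReal_sum_of_nonneg fun P _ => by positivity]
    apply ENNReal.ofReal_le_ofReal
    have h3 : ∑ P ∈ QQ, (1 / Y) ^ P.card ≤
        ∑ P ∈ (range (4 * M)).powerset.erase ∅, (1 / Y) ^ P.card :=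
      Finset.sum_le_sum_of_subset_of_nonneg (Finset.filter_subset _ _)
        fun P _ _ => by positivity
    refine h3.trans ?_
    have h4 := Finset.prod_one_add (f := fun _ : ℕ => 1 / Y) (range (4 * M))
    simp only [Finset.prod_const, Finset.card_range] at h4
    have h5 := Finset.add_sum_erase (range (4 * M)).powerset (fun P => (1 / Y) ^ P.card)
      (Finset.empty_mem_powerset _)
    simp only [Finset.card_empty, pow_zero] at h5
    have h6 : ∑ P ∈ (range (4 * M)).powerset.erase ∅, (1 / Y) ^ P.card = (1 + 1 / Y) ^ (4 * M) - 1 := by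
      rw [h4]
      linarith
    rw [h6]
    set z : ℝ := 4 * M * (1 / Y) with hz
    have hzv : z = 1 / (2 * (M ^ 4 * N ^ 2)) := by
      rw [hz, hY]
      field_simp
      ring
    have hMN : (1 : ℝ) ≤ (M : ℝ) ^ 4 * (N : ℝ) ^ 2 :=
      one_le_mul_of_one_le_of_one_le (one_le_pow₀ hM1) (one_le_pow₀ hN1)
    have hz0 : 0 ≤ z := by
      rw [hzv]
      positivity
    have hz1 : z ≤ 1 / 2 := by
      rw [hzv]
      apply div_le_div_of_nonneg_left zero_le_one (by norm_num)
      linarith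
    have h7 : (1 + 1 / Y) ^ (4 * M) ≤ Real.exp z := by
      have : (1 : ℝ) + 1 / Y ≤ Real.exp (1 / Y) := by
        have := Real.add_one_le_exp (1 / Y)
        linarith
      calc (1 + 1 / Y) ^ (4 * M) ≤ (Real.exp (1 / Y)) ^ (4 * M) :=
            pow_le_pow_left₀ (by positivity) this _
        _ = Real.exp z := by
            rw [← Real.exp_nat_mul, hz]
            push_cast
            rfl
    have h8 : Real.exp z ≤ 1 + 2 * z := by
      refine (Real.exp_bound_div_one_sub_of_interval hz0 (by linarith)).trans ?_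
      rw [div_le_iff₀ (by linarith)]
      nlinarith
    have h9 : 2 * z = 1 / (M ^ 4 * N ^ 2) := by
      rw [hzv]
      field_simp
    linarith
  refine (Finset.sum_le_sum h2).trans ?_
  rw [← ENNReal.ofReal_sum_of_nonneg fun P _ => by positivity]
  apply ENNReal.ofReal_le_ofReal
  rw [Finset.sum_const, Nat.card_Icc, nsmul_eq_mul]
  apply le_of_eq
  rw [Nat.add_sub_cancel]
  push_cast
  field_simp

theorem good_ae (hm : ∀ n, Measurable (ξ n)) (hi : iIndepFun ξ μ)
    (h01 : ∀ n ω, 0 ≤ ξ n ω ∧ ξ n ω ≤ 1) {h : ℕ → ℝ} (hh1 : ∀ n, 1 ≤ h n) (hh : Monotone h)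
    (hlaw : ∀ n, ∀ s : Set ℝ, MeasurableSet s → μ (ξ n ⁻¹' s) ≤ ENNReal.ofReal (h n) * volume s) :
    ∀ᵐ ω ∂μ, ∀ᶠ N : ℕ in Filter.atTop, ∀ M : ℕ, 1 ≤ M →
      Good (fun n => Real.log (n + ξ n ω)) N M (38 * h (2 * N)) (Real.log (8 * M ^ 5 * N ^ 2)) := by
  set C : ENNReal := ∑' M : ℕ, ENNReal.ofReal (1 / (M : ℝ) ^ 2) with hC
  have hsum : Summable fun N : ℕ => 1 / (N : ℝ) ^ 2 := Real.summable_one_div_nat_pow.2 (by norm_num)
  have hCtop : C ≠ ⊤ := hsum.tsum_ofReal_ne_top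
  have hN : ∀ N : ℕ, 1 ≤ N → μ {ω | ∃ M : ℕ, 1 ≤ M ∧
      ¬ Good (fun n => Real.log (n + ξ n ω)) N M (38 * h (2 * N)) (Real.log (8 * M ^ 5 * N ^ 2))} ≤
      C * ENNReal.ofReal (1 / (N : ℝ) ^ 2) := by
    intro N hN
    have h1 : {ω | ∃ M : ℕ, 1 ≤ M ∧ ¬ Good (fun n => Real.log (n + ξ n ω)) N M (38 * h (2 * N))
        (Real.log (8 * M ^ 5 * N ^ 2))} ⊆ ⋃ M : ℕ, {ω | 1 ≤ M ∧
        ¬ Good (fun n => Real.log (n + ξ n ω)) N M (38 * h (2 * N))
        (Real.log (8 * M ^ 5 * N ^ 2))} := by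
      intro ω hω
      obtain ⟨M, hM⟩ := hω
      exact Set.mem_iUnion.2 ⟨M, hM⟩
    refine (measure_mono h1).trans ((measure_iUnion_le _).trans ?_)
    rw [hC, ← ENNReal.tsum_mul_right]
    apply ENNReal.tsum_le_tsum
    intro M
    rcases Nat.eq_zero_or_pos M with h0 | h0
    · subst h0
      simp
    · have h2 : {ω | 1 ≤ M ∧ ¬ Good (fun n => Real.log (n + ξ n ω)) N M (38 * h (2 * N))
          (Real.log (8 * M ^ 5 * N ^ 2))} ⊆ {ω | ¬ Good (fun n => Real.log (n + ξ n ω)) N M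
          (38 * h (2 * N)) (Real.log (8 * M ^ 5 * N ^ 2))} := fun ω hω => hω.2
      refine (measure_mono h2).trans ?_
      refine (union hm hi h01 (by linarith [hh1 (2 * N)]) N M hN h0 ?_).trans (le_of_eq ?_)
      · intro n hn s hs
        refine (hlaw n s hs).trans ?_
        gcongr
        exact hh (mem_Icc.1 hn).2
      · rw [← ENNReal.ofReal_mul (by positivity)]
        congr 1
        rw [one_div_mul_one_div]
  have hae := ae_eventually_notMem (μ := μ) (s := fun N : ℕ => {ω | ∃ M : ℕ, 1 ≤ M ∧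
      ¬ Good (fun n => Real.log (n + ξ n ω)) N M (38 * h (2 * N)) (Real.log (8 * M ^ 5 * N ^ 2))}) (by
    have h1 : ∑' N : ℕ, μ {ω | ∃ M : ℕ, 1 ≤ M ∧
        ¬ Good (fun n => Real.log (n + ξ n ω)) N M (38 * h (2 * N)) (Real.log (8 * M ^ 5 * N ^ 2))} ≤
        ∑' N : ℕ, ((if N = 0 then 1 else 0) + C * ENNReal.ofReal (1 / (N : ℝ) ^ 2)) := by
      apply ENNReal.tsum_le_tsum
      intro N
      rcases Nat.eq_zero_or_pos N with h0 | h0
      · subst h0
        rw [if_pos rfl]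
        exact prob_le_one.trans le_self_add
      · exact (hN N h0).trans le_add_self
    refine ne_top_of_le_ne_top ?_ h1
    rw [ENNReal.tsum_add]
    apply ENNReal.add_ne_top.2
    constructor
    · rw [tsum_ite_eq]
      exact ENNReal.one_ne_top
    · rw [ENNReal.tsum_mul_left, ← hC]
      exact ENNReal.mul_ne_top hCtop hCtop)
  filter_upwards [hae] with ω hω
  filter_upwards [hω] with N hN' M hM
  by_contra hcon
  exact hN' ⟨M, hM, hcon⟩

end Pool.Agent.Helper22M
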