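import Mathlib

/-!
# Trigonometric polynomials with coefficients `1, i, -1, -i`

A finite set `P` of natural numbers (codes) describes the trigonometric polynomial `FP P`: the code
`u` gives the term `i ^ u e^{i ⌊u/4⌋ x}`.
-/

set_option autoImplicit false

open Finset MeasureTheory Real

namespace Pool.Agent.Helper22M

/-- `e^{itx}` -/
noncomputable def ex (t : ℕ) (x : ℝ) : ℂ := Complex.exp (Complex.I * (t : ℂ) * (x : ℂ))

/-- the trigonometric polynomial of a set of codes -/
noncomputable def FP (P : Finset ℕ) (x : ℝ) : ℂ := ∑ u ∈ P, Complex.I ^ u * ex (u / 4) x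

theorem ex_cont (t : ℕ) : Continuous (ex t) := by
  unfold ex
  fun_prop

theorem FP_cont (P : Finset ℕ) : Continuous (FP P) := by
  unfold FP
  exact continuous_finsetSum _ fun u _ => continuous_const.mul (ex_cont _)

theorem norm_ex (t : ℕ) (x : ℝ) : ‖ex t x‖ = 1 := by
  unfold ex
  have : Complex.I * (t : ℂ) * (x : ℂ) = ((t * x : ℝ) : ℂ) * Complex.I := by
    push_cast
    ring
  rw [this, Complex.norm_exp_ofReal_mul_I]

theorem norm_term (u : ℕ) (x : ℝ) : ‖Complex.I ^ u * ex (u / 4) x‖ = 1 := by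
  rw [norm_mul, norm_pow, Complex.norm_I, one_pow, norm_ex, one_mul]

theorem norm_FP_le (P : Finset ℕ) (x : ℝ) : ‖FP P x‖ ≤ P.card := by
  unfold FP
  refine (norm_sum_le _ _).trans ?_
  simp only [norm_term, Finset.sum_const, nsmul_eq_mul, mul_one, le_refl]

theorem int_exp (a : ℝ) (k : ℤ) :
    ∫ x in a..(a + 2 * π), Complex.exp ((Complex.I * (k : ℂ)) * (x : ℂ)) =
      if k = 0 then ((2 * π : ℝ) : ℂ) else 0 := by
  split_ifs with h
  · subst h
    simp
  · have hc : Complex.I * (k : ℂ) ≠ 0 := mul_ne_zero Complex.I_ne_zero (by exact_mod_cast h)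
    rw [integral_exp_mul_complex hc]
    have : Complex.exp (Complex.I * (k : ℂ) * ((a + 2 * π : ℝ) : ℂ)) =
        Complex.exp (Complex.I * (k : ℂ) * (a : ℂ)) := by
      rw [Complex.exp_eq_exp_iff_exists_int]
      refine ⟨k, ?_⟩
      push_cast
      ring
    rw [this, sub_self, zero_div]

theorem ms (P : Finset ℕ) (hP : Set.InjOn (fun u : ℕ => u / 4) P) (a : ℝ) :
    ∫ x in a..(a + 2 * π), ‖FP P x‖ ^ 2 = 2 * π * P.card := by
  have key : ∀ x : ℝ, ((‖FP P x‖ ^ 2 : ℝ) : ℂ) = ∑ u ∈ P, ∑ v ∈ P,
      (Complex.I ^ u * (starRingEnd ℂ) (Complex.I ^ v)) *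
        Complex.exp ((Complex.I * ((((u / 4 : ℕ) : ℤ) - ((v / 4 : ℕ) : ℤ) : ℤ) : ℂ)) * (x : ℂ)) := by
    intro x
    have h1 : ((‖FP P x‖ ^ 2 : ℝ) : ℂ) = FP P x * (starRingEnd ℂ) (FP P x) := by
      rw [Complex.mul_conj']
      push_cast
      rfl
    rw [h1]
    unfold FP
    rw [map_sum, Finset.sum_mul_sum]
    refine Finset.sum_congr rfl fun u _ => Finset.sum_congr rfl fun v _ => ?_
    have h2 : (starRingEnd ℂ) (ex (v / 4) x) =
        Complex.exp (-(Complex.I * ((v / 4 : ℕ) : ℂ) * (x : ℂ))) := by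
      unfold ex
      rw [← Complex.exp_conj]
      congr 1
      simp
    rw [map_mul, h2]
    unfold ex
    have h3 : Complex.exp ((Complex.I * ((((u / 4 : ℕ) : ℤ) - ((v / 4 : ℕ) : ℤ) : ℤ) : ℂ)) * (x : ℂ)) =
        Complex.exp (Complex.I * ((u / 4 : ℕ) : ℂ) * (x : ℂ)) *
          Complex.exp (-(Complex.I * ((v / 4 : ℕ) : ℂ) * (x : ℂ))) := by
      rw [← Complex.exp_add]
      congr 1
      simp only [Int.cast_sub, Int.cast_natCast]
      ring
    rw [h3]
    ring
  have hcast : (((∫ x in a..(a + 2 * π), ‖FP P x‖ ^ 2) : ℝ) : ℂ) = ((2 * π * P.card : ℝ) : ℂ) := by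
    rw [← intervalIntegral.integral_ofReal]
    rw [intervalIntegral.integral_congr fun x _ => key x]
    rw [intervalIntegral.integral_finsetSum]
    · have h4 : ∀ u ∈ P, ∫ x in a..(a + 2 * π), ∑ v ∈ P,
          (Complex.I ^ u * (starRingEnd ℂ) (Complex.I ^ v)) *
          Complex.exp ((Complex.I * ((((u / 4 : ℕ) : ℤ) - ((v / 4 : ℕ) : ℤ) : ℤ) : ℂ)) * (x : ℂ)) =
          ((2 * π : ℝ) : ℂ) := by
        intro u hu
        rw [intervalIntegral.integral_finsetSum]
        · rw [Finset.sum_eq_single u]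
          · rw [intervalIntegral.integral_const_mul, int_exp]
            rw [if_pos (sub_self _)]
            have : Complex.I ^ u * (starRingEnd ℂ) (Complex.I ^ u) = 1 := by
              rw [Complex.mul_conj', norm_pow, Complex.norm_I]
              simp
            rw [this, one_mul]
          · intro v hv hvu
            rw [intervalIntegral.integral_const_mul, int_exp]
            rw [if_neg, mul_zero]
            intro h0
            apply hvu
            have h5 : u / 4 = v / 4 := by
              have : ((u / 4 : ℕ) : ℤ) = ((v / 4 : ℕ) : ℤ) := by linarith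
              exact_mod_cast this
            exact (hP hu hv h5).symm
          · intro h
            exact absurd hu h
        · intro v _
          exact (Continuous.intervalIntegrable (by fun_prop) _ _)
      rw [Finset.sum_congr rfl h4, Finset.sum_const, nsmul_eq_mul]
      push_cast
      ring
    · intro u _
      exact (Continuous.intervalIntegrable (by fun_prop) _ _)
  exact_mod_cast hcast

theorem ms2 (P : Finset ℕ) (hP : Set.InjOn (fun u : ℕ => u / 4) P) (N : ℕ) (hN : 1 ≤ N) :
    ∫ y in (N : ℝ)..(2 * N + 1), ‖FP P (Real.log y)‖ ^ 2 ≤ (2 * N + 1) * (2 * π * P.card) := by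
  have hN1 : (1 : ℝ) ≤ N := by exact_mod_cast hN
  have hle : (N : ℝ) ≤ 2 * N + 1 := by linarith
  have hu : Set.uIcc (N : ℝ) (2 * N + 1) = Set.Icc (N : ℝ) (2 * N + 1) := Set.uIcc_of_le hle
  have hlogc : ContinuousOn Real.log (Set.uIcc (N : ℝ) (2 * N + 1)) := by
    rw [hu]
    intro y hy
    have : y ≠ 0 := by
      have := hy.1
      intro h
      linarith
    exact (Real.continuousAt_log this).continuousWithinAt
  have hc1 : ContinuousOn (fun y : ℝ => ‖FP P (Real.log y)‖ ^ 2) (Set.uIcc (N : ℝ) (2 * N + 1)) :=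
    (((FP_cont P).norm.pow 2).comp_continuousOn hlogc)
  have hinv : ContinuousOn (fun y : ℝ => y⁻¹) (Set.uIcc (N : ℝ) (2 * N + 1)) := by
    rw [hu]
    intro y hy
    have : y ≠ 0 := by
      have := hy.1
      intro h
      linarith
    exact (continuousAt_inv₀ this).continuousWithinAt
  have h1 : ∫ y in (N : ℝ)..(2 * N + 1), ‖FP P (Real.log y)‖ ^ 2 ≤
      ∫ y in (N : ℝ)..(2 * N + 1), (2 * N + 1) * (‖FP P (Real.log y)‖ ^ 2 * y⁻¹) := by
    apply intervalIntegral.integral_mono_on hle
    · exact hc1.intervalIntegrable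
    · exact (continuousOn_const.mul (hc1.mul hinv)).intervalIntegrable
    · intro y hy
      have hy0 : (0 : ℝ) < y := by linarith [hy.1]
      have : (1 : ℝ) ≤ (2 * N + 1) * y⁻¹ := by
        rw [← div_eq_mul_inv, le_div_iff₀ hy0]
        linarith [hy.2]
      have h0 : (0 : ℝ) ≤ ‖FP P (Real.log y)‖ ^ 2 := by positivity
      nlinarith
  rw [intervalIntegral.integral_const_mul] at h1
  have h2 : ∫ y in (N : ℝ)..(2 * N + 1), ‖FP P (Real.log y)‖ ^ 2 * y⁻¹ =
      ∫ x in (Real.log N)..(Real.log (2 * N + 1)), ‖FP P x‖ ^ 2 := by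
    have := intervalIntegral.integral_comp_mul_deriv' (a := (N : ℝ)) (b := 2 * N + 1)
      (f := Real.log) (f' := fun y => y⁻¹) (g := fun x => ‖FP P x‖ ^ 2) (by
        intro y hy
        rw [hu] at hy
        exact Real.hasDerivAt_log (by
          have := hy.1
          intro h
          linarith)) hinv ((FP_cont P).norm.pow 2).continuousOn
    simpa [Function.comp] using this
  rw [h2] at h1
  refine h1.trans ?_
  apply mul_le_mul_of_nonneg_left _ (by linarith)
  rw [← ms P hP (Real.log N)]
  have hlog : Real.log (2 * N + 1) ≤ Real.log N + 2 * π := by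
    have h3 : Real.log (2 * N + 1) ≤ Real.log (3 * N) := by
      apply Real.log_le_log (by linarith)
      linarith
    rw [Real.log_mul (by norm_num) (by linarith)] at h3
    have h4 : Real.log 3 ≤ 3 - 1 := Real.log_le_sub_one_of_pos (by norm_num)
    linarith [Real.pi_gt_three]
  have hlog2 : Real.log N ≤ Real.log (2 * N + 1) := Real.log_le_log (by linarith) (by linarith)
  apply intervalIntegral.integral_mono_interval le_rfl hlog2 hlog
  · exact Filter.Eventually.of_forall fun x => by positivity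
  · exact (((FP_cont P).norm.pow 2).intervalIntegrable _ _)

end Pool.Agent.Helper22M
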